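import Mathlib
import Pool.Agent.Work.MP_d3656f_al.DefsI

/-!
# W/Defs : the right angled reflection group of the regular `(2 g + 2)`-gon (FIXED, do not edit)
-/

set_option autoImplicit false

namespace Pool.Agent.Work.MP_d3656f_al

/-- The Coxeter matrix: `2` for cyclically adjacent letters, `0` (no relation) otherwise. -/
def cox (g : ℕ) : CoxeterMatrix (ZMod (2 * g + 2)) where
  M := Matrix.of fun i j => if i = j then 1 else if j = i + 1 ∨ i = j + 1 then 2 else 0
  isSymm := by
    ext i j
    simp only [Matrix.transpose_apply, Matrix.of_apply]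
    by_cases h : i = j
    · subst h; rfl
    · have h' : j ≠ i := fun e => h e.symm
      rw [if_neg h, if_neg h']
      by_cases h2 : j = i + 1 ∨ i = j + 1
      · rw [if_pos h2, if_pos h2.symm]
      · rw [if_neg h2, if_neg fun e => h2 e.symm]
  diagonal := by
    intro i
    simp
  off_diagonal := by
    intro i j h
    simp only [Matrix.of_apply]
    rw [if_neg h]
    split_ifs <;> norm_num

/-- The reflection group. -/
abbrev Wg (g : ℕ) : Type := (cox g).Group

/-- The Coxeter system. -/
noncomputable abbrev csW (g : ℕ) : CoxeterSystem (cox g) (Wg g) := (cox g).toCoxeterSystem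

/-- The regular right angled polygon: outer normals `e k` with respect to `Q`. -/
structure Poly (g : ℕ) where
  e : ZMod (2 * g + 2) → V
  s : ℝ
  s_pos : 0 < s
  self : ∀ k, Q (e k) (e k) = -1
  adj0 : ∀ k, Q (e k) (e (k + 1)) = 0
  far : ∀ k l, k ≠ l → l ≠ k + 1 → k ≠ l + 1 → 1 ≤ Q (e k) (e l)
  bs : ∀ k, Q base (e k) = s
  bdd : ∃ R : ℝ, ∀ x ∈ Hyp, (∀ k, 0 ≤ Q x (e k)) → x 2 ≤ R

/-- The reflection representation. -/
def IsRep {g : ℕ} (P : Poly g) (R : Wg g →* Matrix (Fin 3) (Fin 3) ℝ) : Prop :=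
  ∀ (k : ZMod (2 * g + 2)) (x : V),
    (R ((csW g).simple k)).mulVec x = x + (2 * Q x (P.e k)) • P.e k

/-- The parity of a letter. -/
def par {g : ℕ} (k : ZMod (2 * g + 2)) : ℕ := k.val % 2

/-- `c` is the homomorphism to `ℤ/2 × ℤ/2` counting even and odd letters modulo 2. -/
def IsCl {g : ℕ} (c : Wg g →* Multiplicative (ZMod 2) × Multiplicative (ZMod 2)) : Prop :=
  ∀ k : ZMod (2 * g + 2), c ((csW g).simple k) =
    if par k = 0 then (Multiplicative.ofAdd 1, 1) else (1, Multiplicative.ofAdd 1)

end Pool.Agent.Work.MP_d3656f_al
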