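import Mathlib
import Pool.Agent.Work.MP_d3656f_al.W.Defs
import Pool.Agent.Work.MP_d3656f_al.I.Fox

/-!
# W/EmbD : letters of the reflection group, elements of the surface group (definitions FIXED)

`wS = c_0`, `wE i = c_(2i+1)`, `wO i = c_(2i+2)`; `IsRho ρ` fixes the homomorphism from the surface
group. The lemmas are direct consequences of the Coxeter relations: squares are `1`
(`simple_mul_simple_self`), adjacent letters commute (`simple_mul_simple_pow` with exponent `2`);
`wS` commutes with `wE 0` (positions `0`, `1`) and with `wE g` (position `2 g + 1 = -1`).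
-/

set_option autoImplicit false

namespace Pool.Agent.Work.MP_d3656f_al

/-- The letter at position `0`. -/
noncomputable def wS (g : ℕ) : Wg g := (csW g).simple 0

/-- The letter at position `2 i + 1`. -/
noncomputable def wE (g i : ℕ) : Wg g := (csW g).simple ((2 * i + 1 : ℕ) : ZMod (2 * g + 2))

/-- The letter at position `2 i + 2`. -/
noncomputable def wO (g i : ℕ) : Wg g := (csW g).simple ((2 * i + 2 : ℕ) : ZMod (2 * g + 2))

/-- The homomorphism from the surface group to the reflection group. -/
def IsRho {g : ℕ} (ρ : SG g →* Wg g) : Prop :=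
  (∀ i : Fin g, ρ (sg (Sum.inl i)) = wE g i * wS g * wO g i * wE g i) ∧
    ∀ i : Fin g, ρ (sg (Sum.inr i)) = wE g (i + 1) * wE g i

/-- `β_i = b_(i-1) ... b_0`. -/
def sB {g : ℕ} (i : ℕ) : SG g :=
  (((List.finRange g).take i).reverse.map (fun k : Fin g => sg (Sum.inr k))).prod

theorem sB_zero {g : ℕ} : (sB 0 : SG g) = 1 := by
  simp [sB]

theorem sB_succ {g : ℕ} (i : Fin g) : (sB ((i : ℕ) + 1) : SG g) = sg (Sum.inr i) * sB (i : ℕ) := by
  unfold sB
  have h : (List.finRange g).take ((i : ℕ) + 1) = (List.finRange g).take (i : ℕ) ++ [i] := by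
    rw [List.take_add_one]
    congr 1
    rw [List.getElem?_eq_getElem (by simp)]
    simp
  rw [h, List.reverse_append, List.map_append, List.prod_append]
  simp

theorem wS_sq (g : ℕ) : wS g * wS g = 1 := (csW g).simple_mul_simple_self _

theorem wE_sq (g i : ℕ) : wE g i * wE g i = 1 := (csW g).simple_mul_simple_self _

theorem wO_sq (g i : ℕ) : wO g i * wO g i = 1 := (csW g).simple_mul_simple_self _

/-- Adjacent letters commute. -/
private theorem adj_comm (g : ℕ) (k l : ZMod (2 * g + 2)) (h : l = k + 1) :
    (csW g).simple k * (csW g).simple l = (csW g).simple l * (csW g).simple k := by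
  by_cases hkl : k = l
  · rw [hkl]
  · have h2 : (cox g).M k l = 2 := by
      simp only [cox, Matrix.of_apply]
      rw [if_neg hkl, if_pos (Or.inl h)]
    have h3 := (csW g).simple_mul_simple_pow k l
    rw [h2, pow_two] at h3
    have hk := (csW g).simple_mul_simple_self k
    have hl := (csW g).simple_mul_simple_self l
    calc (csW g).simple k * (csW g).simple l
        = (csW g).simple k * (csW g).simple l * ((csW g).simple k * (csW g).simple l)
          * ((csW g).simple l * (csW g).simple k) := by
            rw [mul_assoc _ _ ((csW g).simple l * (csW g).simple k),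
              mul_assoc ((csW g).simple k) ((csW g).simple l) ((csW g).simple l * _),
              ← mul_assoc ((csW g).simple l) ((csW g).simple l), hl, one_mul, hk, mul_one]
      _ = (csW g).simple l * (csW g).simple k := by rw [h3, one_mul]

theorem wO_wE (g i : ℕ) : wO g i * wE g i = wE g i * wO g i := by
  unfold wO wE
  exact (adj_comm g _ _ (by push_cast; ring)).symm

theorem wO_wE' (g i : ℕ) : wO g i * wE g (i + 1) = wE g (i + 1) * wO g i := by
  unfold wO wE
  exact adj_comm g _ _ (by push_cast; ring)

theorem wS_wE0 (g : ℕ) : wS g * wE g 0 = wE g 0 * wS g := by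
  unfold wS wE
  exact adj_comm g _ _ (by push_cast; ring)

theorem wS_wEg (g : ℕ) : wS g * wE g g = wE g g * wS g := by
  unfold wS wE
  refine (adj_comm g _ _ ?_).symm
  have h : ((2 * g + 1 : ℕ) : ZMod (2 * g + 2)) + 1 = ((2 * g + 2 : ℕ) : ZMod (2 * g + 2)) := by
    push_cast; ring
  rw [h, ZMod.natCast_self]

/-- Every letter is one of `wS`, `wE i` (`i ≤ g`), `wO i` (`i < g`). -/
theorem letter_cases {g : ℕ} (k : ZMod (2 * g + 2)) :
    (csW g).simple k = wS g ∨ (∃ i ≤ g, (csW g).simple k = wE g i) ∨
      ∃ i < g, (csW g).simple k = wO g i := by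
  have hlt : k.val < 2 * g + 2 := ZMod.val_lt k
  have hk : ((k.val : ℕ) : ZMod (2 * g + 2)) = k := ZMod.natCast_zmod_val k
  rcases Nat.even_or_odd' k.val with ⟨m, hm | hm⟩
  · rcases Nat.eq_zero_or_pos m with h0 | h0
    · left
      unfold wS
      have : k.val = 0 := by omega
      rw [← hk, this]; simp
    · right; right
      refine ⟨m - 1, by omega, ?_⟩
      unfold wO
      have : 2 * (m - 1) + 2 = k.val := by omega
      rw [this, hk]
  · right; left
    refine ⟨m, by omega, ?_⟩
    unfold wE
    rw [← hm, hk]

end Pool.Agent.Work.MP_d3656f_al
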