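import Mathlib
import Pool.Agent.Work.MP_d3656f_al.W.EmbD

/-!
# W/EmbB : the homomorphism is injective

In `π = SG g` let `P_i = sP i`, `β_i = sB i`,
`x_i = (P_i a_i)⁻¹`, `x'_i = β_i⁻¹ a_i⁻¹ β_i`, `y_i = β_i`, `y'_i = P_i β_i`. Define for every letter a
permutation of the set `π × {1, s, E, sE}` (four symbols, e.g. `π × Bool × Bool`), written as a right
action: `(γ,1)O_i = (γ x_i, s)`, `(γ,s)O_i = (γ x_i⁻¹, 1)`, `(γ,E)O_i = (γ x'_i, sE)`,
`(γ,sE)O_i = (γ x'_i⁻¹, E)`; the same with `x = x' = 1` for the letter `s` (position 0);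
`(γ,1)E_i = (γ y_i, E)`, `(γ,E)E_i = (γ y_i⁻¹, 1)`, `(γ,s)E_i = (γ y'_i, sE)`,
`(γ,sE)E_i = (γ y'_i⁻¹, s)`.
These are involutions. A letter of the first kind (with `x, x'`) and one of the second kind (with
`y, y'`) commute iff `x y' = y x'`. Adjacent pairs:
`(O_i, E_i)`: `x_i y'_i = a_i⁻¹ P_i⁻¹ P_i β_i = a_i⁻¹ β_i = y_i x'_i`;
`(O_i, E_(i+1))`: `x_i y'_(i+1) = a_i⁻¹ P_i⁻¹ P_(i+1) b_i β_i = a_i⁻¹ (a_i b_i a_i⁻¹ b_i⁻¹) b_i β_i
= b_i a_i⁻¹ β_i = b_i β_i β_i⁻¹ a_i⁻¹ β_i = y_(i+1) x'_i`;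
`(s, E_0)`: `y'_0 = 1 = y_0`; `(s, E_g)`: `y'_g = P_g β_g = β_g = y_g` (`sP_top`).
So the Coxeter relations hold and `CoxeterSystem.lift` gives a homomorphism from `Wg g` to the
opposite of the permutation group (or: from `Wg g` to permutations by `w ↦ (x ↦ x w⁻¹)`).
On generators: `(γ,1) ρ(b_i) = (γ y_(i+1), E) E_i = (γ y_(i+1) y_i⁻¹, 1) = (γ b_i, 1)`,
`(γ,1) ρ(a_i) = (γ,1) E_i s O_i E_i = (γ y_i, E) s O_i E_i = (γ y_i, sE) O_i E_i
= (γ y_i x'_i⁻¹, E) E_i = (γ y_i x'_i⁻¹ y_i⁻¹, 1) = (γ a_i, 1)`.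
So `(γ,1) ρ(δ) = (γ δ, 1)` for all `δ` (the set of `δ` for which this holds for all `γ` is a
subgroup), and `ρ δ = 1` implies `(1,1) = (δ, 1)`.
-/

set_option autoImplicit false

namespace Pool.Agent.Work.MP_d3656f_al

/-- Letters of the first kind. -/
private def fA {G : Type} [Group G] (x x' : G) : G × Bool × Bool → G × Bool × Bool
  | (γ, false, false) => (γ * x, true, false)
  | (γ, true, false) => (γ * x⁻¹, false, false)
  | (γ, false, true) => (γ * x', true, true)
  | (γ, true, true) => (γ * x'⁻¹, false, true)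

/-- Letters of the second kind. -/
private def fB {G : Type} [Group G] (y y' : G) : G × Bool × Bool → G × Bool × Bool
  | (γ, false, false) => (γ * y, false, true)
  | (γ, false, true) => (γ * y⁻¹, false, false)
  | (γ, true, false) => (γ * y', true, true)
  | (γ, true, true) => (γ * y'⁻¹, true, false)

private theorem fA_inv {G : Type} [Group G] (x x' : G) : Function.Involutive (fA x x') := by
  rintro ⟨γ, a, b⟩
  cases a <;> cases b <;> simp [fA]

private theorem fB_inv {G : Type} [Group G] (y y' : G) : Function.Involutive (fB y y') := by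
  rintro ⟨γ, a, b⟩
  cases a <;> cases b <;> simp [fB]

private def pA {G : Type} [Group G] (x x' : G) : Equiv.Perm (G × Bool × Bool) :=
  (fA_inv x x').toPerm

private def pB {G : Type} [Group G] (y y' : G) : Equiv.Perm (G × Bool × Bool) :=
  (fB_inv y y').toPerm

private theorem pA_ft {G : Type} [Group G] (x x' γ : G) :
    pA x x' (γ, false, true) = (γ * x', true, true) := rfl

private theorem pA_tt {G : Type} [Group G] (x x' γ : G) :
    pA x x' (γ, true, true) = (γ * x'⁻¹, false, true) := rfl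

private theorem pB_ff {G : Type} [Group G] (y y' γ : G) :
    pB y y' (γ, false, false) = (γ * y, false, true) := rfl

private theorem pB_ft {G : Type} [Group G] (y y' γ : G) :
    pB y y' (γ, false, true) = (γ * y⁻¹, false, false) := rfl

private theorem pA_sq {G : Type} [Group G] (x x' : G) : pA x x' * pA x x' = 1 := by
  ext1 p; exact fA_inv x x' p

private theorem pB_sq {G : Type} [Group G] (y y' : G) : pB y y' * pB y y' = 1 := by
  ext1 p; exact fB_inv y y' p

private theorem pAB {G : Type} [Group G] {x x' y y' : G} (h : x * y' = y * x') :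
    pA x x' * pB y y' = pB y y' * pA x x' := by
  have h1 : x⁻¹ * y = y' * x'⁻¹ := by
    rw [inv_mul_eq_iff_eq_mul, ← mul_assoc, h, mul_inv_cancel_right]
  have h2 : y'⁻¹ * x⁻¹ = x'⁻¹ * y⁻¹ := by
    rw [← mul_inv_rev, ← mul_inv_rev, h]
  have h3 : x' * y'⁻¹ = y⁻¹ * x := by
    rw [mul_inv_eq_iff_eq_mul, mul_assoc, h, inv_mul_cancel_left]
  ext1 ⟨γ, a, b⟩
  change fA x x' (fB y y' (γ, a, b)) = fB y y' (fA x x' (γ, a, b))
  cases a <;> cases b <;> simp only [fA, fB, mul_assoc]
  · rw [h]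
  · rw [h3]
  · rw [h1]
  · rw [h2]

private theorem sq_of {G : Type} [Group G] {p q : G} (hp : p * p = 1) (hq : q * q = 1)
    (h : p * q = q * p) : (p * q) ^ 2 = 1 := by
  rw [pow_two]
  calc p * q * (p * q) = p * q * (q * p) := by rw [h]
    _ = p * (q * q) * p := by group
    _ = 1 := by rw [hq, mul_one, hp]

/-- The permutations of the letters. -/
private def FL (g : ℕ) (n : ℕ) : Equiv.Perm (SG g × Bool × Bool) :=
  if n % 2 = 1 then pB (sB (n / 2)) (sP (n / 2) * sB (n / 2))
  else if h : 0 < n ∧ n / 2 - 1 < g then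
    pA ((sP (n / 2 - 1) * sg (Sum.inl ⟨n / 2 - 1, h.2⟩))⁻¹)
      ((sB (n / 2 - 1))⁻¹ * (sg (Sum.inl ⟨n / 2 - 1, h.2⟩))⁻¹ * sB (n / 2 - 1))
  else pA 1 1

private theorem FL_odd (g i : ℕ) : FL g (2 * i + 1) = pB (sB i) (sP i * sB i) := by
  unfold FL
  rw [if_pos (by omega), show (2 * i + 1) / 2 = i by omega]

private theorem FL_zero (g : ℕ) : FL g 0 = pA 1 1 := by
  unfold FL
  rw [if_neg (by omega), dif_neg (by omega)]

private theorem FL_even (g i : ℕ) (hi : i < g) : FL g (2 * i + 2)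
    = pA ((sP i * sg (Sum.inl ⟨i, hi⟩))⁻¹) ((sB i)⁻¹ * (sg (Sum.inl ⟨i, hi⟩))⁻¹ * sB i) := by
  have e : (2 * i + 2) / 2 - 1 = i := by omega
  unfold FL
  rw [if_neg (by omega), dif_pos ⟨by omega, by omega⟩]
  simp only [e]

private theorem FL_sq (g n : ℕ) : FL g n * FL g n = 1 := by
  unfold FL
  split_ifs
  · exact pB_sq _ _
  · exact pA_sq _ _
  · exact pA_sq _ _

private theorem FL_OE (g i : ℕ) (hi : i < g) :
    FL g (2 * i + 2) * FL g (2 * i + 1) = FL g (2 * i + 1) * FL g (2 * i + 2) := by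
  rw [FL_odd, FL_even g i hi]
  apply pAB
  group

private theorem FL_OE' (g i : ℕ) (hi : i < g) :
    FL g (2 * i + 2) * FL g (2 * i + 3) = FL g (2 * i + 3) * FL g (2 * i + 2) := by
  rw [show 2 * i + 3 = 2 * (i + 1) + 1 by ring, FL_odd, FL_even g i hi]
  apply pAB
  have h1 := sP_succ (⟨i, hi⟩ : Fin g)
  have h2 := sB_succ (⟨i, hi⟩ : Fin g)
  simp only at h1 h2
  rw [h1, h2]
  group

private theorem FL_SE0 (g : ℕ) : FL g 0 * FL g 1 = FL g 1 * FL g 0 := by
  rw [FL_zero, show (1 : ℕ) = 2 * 0 + 1 by ring, FL_odd]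
  apply pAB
  rw [sP_zero, one_mul, one_mul, mul_one]

private theorem FL_SEg (g : ℕ) : FL g 0 * FL g (2 * g + 1) = FL g (2 * g + 1) * FL g 0 := by
  rw [FL_zero, FL_odd]
  apply pAB
  rw [sP_top, one_mul, one_mul, mul_one]

private theorem FL_adj (g : ℕ) (k : ZMod (2 * g + 2)) :
    FL g k.val * FL g (k + 1).val = FL g (k + 1).val * FL g k.val := by
  have hlt : k.val < 2 * g + 2 := ZMod.val_lt k
  have h1 : (k + 1).val = if k.val = 2 * g + 1 then 0 else k.val + 1 := by
    rw [ZMod.val_add, ZMod.val_one_eq_one_mod, Nat.mod_eq_of_lt (show 1 < 2 * g + 2 by omega)]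
    split_ifs with h
    · rw [h]; exact Nat.mod_self _
    · exact Nat.mod_eq_of_lt (by omega)
  rw [h1]
  split_ifs with h
  · rw [h]; exact (FL_SEg g).symm
  · rcases Nat.even_or_odd' k.val with ⟨m, hm | hm⟩
    · rcases Nat.eq_zero_or_pos m with h0 | h0
      · rw [hm, h0]; exact FL_SE0 g
      · have e : k.val = 2 * (m - 1) + 2 := by omega
        rw [e]; exact FL_OE' g (m - 1) (by omega)
    · rw [hm]; exact (FL_OE g m (by omega)).symm

private theorem FL_lift (g : ℕ) : (cox g).IsLiftable (fun k => FL g k.val) := by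
  intro k l
  by_cases hkl : k = l
  · subst hkl
    have : (cox g).M k k = 1 := (cox g).diagonal k
    rw [this, pow_one]
    exact FL_sq g _
  · by_cases h : l = k + 1 ∨ k = l + 1
    · have h2 : (cox g).M k l = 2 := by
        simp only [cox, Matrix.of_apply]
        rw [if_neg hkl, if_pos h]
      rw [h2]
      rcases h with h | h
      · subst h
        exact sq_of (FL_sq g _) (FL_sq g _) (FL_adj g k)
      · subst h
        exact sq_of (FL_sq g _) (FL_sq g _) (FL_adj g l).symm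
    · have h2 : (cox g).M k l = 0 := by
        simp only [cox, Matrix.of_apply]
        rw [if_neg hkl, if_neg h]
      rw [h2, pow_zero]

theorem rho_inj {g : ℕ} {ρ : SG g →* Wg g} (hρ : IsRho ρ) : Function.Injective ρ := by
  let Φ : Wg g →* Equiv.Perm (SG g × Bool × Bool) := (csW g).lift ⟨_, FL_lift g⟩
  have hΦ : ∀ k, Φ ((csW g).simple k) = FL g k.val := fun k =>
    CoxeterSystem.lift_apply_simple (csW g) (FL_lift g) k
  have hS : Φ (wS g) = FL g 0 := by
    unfold wS; rw [hΦ, ZMod.val_zero]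
  have hE : ∀ i, i ≤ g → Φ (wE g i) = FL g (2 * i + 1) := by
    intro i hi
    unfold wE; rw [hΦ, ZMod.val_natCast, Nat.mod_eq_of_lt (by omega)]
  have hO : ∀ i, i < g → Φ (wO g i) = FL g (2 * i + 2) := by
    intro i hi
    unfold wO; rw [hΦ, ZMod.val_natCast, Nat.mod_eq_of_lt (by omega)]
  have hinv : ∀ w : Wg g, w * w = 1 → w⁻¹ = w := fun w h => inv_eq_of_mul_eq_one_right h
  -- the set of all elements for which the formula holds
  have key : ∀ δ : SG g, ∀ γ : SG g, Φ (ρ δ)⁻¹ (γ, false, false) = (γ * δ, false, false) := by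
    intro δ
    have hmem : δ ∈ Subgroup.closure (Set.range
        (PresentedGroup.of : Fin g ⊕ Fin g → SG g)) := by
      rw [PresentedGroup.closure_range_of]; trivial
    induction hmem using Subgroup.closure_induction with
    | mem x hx =>
      obtain ⟨j, rfl⟩ := hx
      intro γ
      rcases j with i | i
      · have h1 : ρ (PresentedGroup.of (Sum.inl i)) = wE g i * wS g * wO g i * wE g i := hρ.1 i
        rw [h1]
        simp only [mul_inv_rev, hinv _ (wE_sq g _), hinv _ (wS_sq g), hinv _ (wO_sq g _), map_mul,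
          hS, hE _ i.2.le, hO _ i.2, Equiv.Perm.mul_apply]
        rw [FL_odd, FL_zero, FL_even g i i.2]
        rw [pB_ff, pA_ft, pA_tt, pB_ft]
        have : (PresentedGroup.of (Sum.inl i) : SG g) = sg (Sum.inl i) := rfl
        rw [this]
        simp only [Fin.eta]
        congr 1
        group
      · have h1 : ρ (PresentedGroup.of (Sum.inr i)) = wE g (i + 1) * wE g i := hρ.2 i
        rw [h1]
        simp only [mul_inv_rev, hinv _ (wE_sq g _), map_mul, hE _ i.2.le,
          hE ((i : ℕ) + 1) i.2, Equiv.Perm.mul_apply]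
        rw [FL_odd, FL_odd]
        rw [pB_ff, pB_ft]
        have : (PresentedGroup.of (Sum.inr i) : SG g) = sg (Sum.inr i) := rfl
        rw [this, sB_succ]
        congr 1
        group
    | one => intro γ; simp
    | mul x y _ _ hx hy =>
      intro γ
      rw [map_mul, mul_inv_rev, map_mul, Equiv.Perm.mul_apply, hx, hy, mul_assoc]
    | inv x _ hx =>
      intro γ
      have h1 := hx (γ * x⁻¹)
      rw [inv_mul_cancel_right] at h1
      rw [map_inv ρ, inv_inv]
      have h2 : Φ (ρ x)⁻¹ = (Φ (ρ x))⁻¹ := map_inv Φ _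
      rw [h2] at h1
      rw [← h1, ← Equiv.Perm.mul_apply, mul_inv_cancel, Equiv.Perm.one_apply]
  rw [injective_iff_map_eq_one]
  intro δ hδ
  have := key δ 1
  rw [hδ, inv_one, map_one, Equiv.Perm.one_apply, one_mul] at this
  exact (Prod.mk.inj this).1.symm

end Pool.Agent.Work.MP_d3656f_al
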