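import Mathlib
import Pool.Agent.Work.MP_d3656f_al.W.EmbD

/-!
# W/EmbA : the homomorphism exists; parity

Put `z_i = wE i * wS * wE i`, `z_0 = z_g = wS` (`wS_wE0`, `wS_wEg`). With
`A_i = wE i * wS * wO i * wE i`, `B_i = wE (i+1) * wE i`:
`E = wE i`, `E' = wE (i+1)`, `O = wO i` (it commutes with `E` and `E'`, `O O = 1`), `s = wS`:
`A_i B_i A_i⁻¹ B_i⁻¹ = (E s O E)(E' E)(E O s E)(E E') = E s O E E' (E E) O s (E E) E'
= E s O E E' O s E' = E s (O O) E E' s E' = (E s E)(E' s E') = z_i z_(i+1)`. So the product over `i < k` of the commutators is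
`z_0 z_k` (induction, `z_i z_i = 1`), for `k = g` it is `wS wS = 1`, and `PresentedGroup.toGroup`
gives `ρ`. `rho_P`: `ρ (sP k) = wS * (wE k * wS * wE k)` for `k ≤ g`. `rho_B`:
`ρ (sB i) = wE i * wE 0` for `i ≤ g` (induction). Parity: `c (wS) ` and `c (wO i)` are equal
(even positions), all `c (wE i)` are equal (odd positions), the target is commutative of
exponent 2, so `c (ρ (sg j)) = 1` for all generators.
-/

set_option autoImplicit false

namespace Pool.Agent.Work.MP_d3656f_al

/-- The conjugate of `wS` by `wE i`. -/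
private noncomputable def zz (g i : ℕ) : Wg g := wE g i * wS g * wE g i

private theorem zz_sq (g i : ℕ) : zz g i * zz g i = 1 := by
  unfold zz
  calc wE g i * wS g * wE g i * (wE g i * wS g * wE g i)
      = wE g i * wS g * (wE g i * wE g i) * wS g * wE g i := by group
    _ = 1 := by rw [wE_sq, mul_one, mul_assoc (wE g i), wS_sq, mul_one, wE_sq]

private theorem zz_zero (g : ℕ) : zz g 0 = wS g := by
  unfold zz
  rw [← wS_wE0, mul_assoc, wE_sq, mul_one]

private theorem zz_top (g : ℕ) : zz g g = wS g := by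
  unfold zz
  rw [← wS_wEg, mul_assoc, wE_sq, mul_one]

private theorem inv_of_sq {G : Type*} [Group G] {x : G} (h : x * x = 1) : x⁻¹ = x :=
  inv_eq_of_mul_eq_one_right h

private theorem comm_AB (g i : ℕ) :
    (wE g i * wS g * wO g i * wE g i) * (wE g (i + 1) * wE g i)
      * (wE g i * wS g * wO g i * wE g i)⁻¹ * (wE g (i + 1) * wE g i)⁻¹
      = zz g i * zz g (i + 1) := by
  have hE := wE_sq g i
  have hE' := wE_sq g (i + 1)
  have hO := wO_sq g i
  have hS := wS_sq g
  have c1 := wO_wE g i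
  have c2 := wO_wE' g i
  unfold zz
  simp only [mul_inv_rev, inv_of_sq hE, inv_of_sq hE', inv_of_sq hO, inv_of_sq hS]
  -- generalise the letters
  generalize wE g i = E at *
  generalize wE g (i + 1) = E' at *
  generalize wO g i = O at *
  generalize wS g = s at *
  have hEr : ∀ x, E * (E * x) = x := fun x => by rw [← mul_assoc, hE, one_mul]
  have hOr : ∀ x, O * (O * x) = x := fun x => by rw [← mul_assoc, hO, one_mul]
  have c1r : ∀ x, O * (E * x) = E * (O * x) := fun x => by rw [← mul_assoc, c1, mul_assoc]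
  have c2r : ∀ x, O * (E' * x) = E' * (O * x) := fun x => by rw [← mul_assoc, c2, mul_assoc]
  simp only [mul_assoc, hEr, c1r, c2r, hOr]


private theorem tele {G : Type*} [Group G] {g : ℕ} (h : ℕ → G) (hh : ∀ i, h i * h i = 1)
    (k : ℕ) (hk : k ≤ g) :
    (((List.finRange g).take k).map (fun i : Fin g => h (i : ℕ) * h ((i : ℕ) + 1))).prod
      = h 0 * h k := by
  induction k with
  | zero => simp [hh]
  | succ k ih =>
    have hkg : k < g := by omega
    have e : (List.finRange g).take (k + 1) = (List.finRange g).take k ++ [⟨k, hkg⟩] := by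
      rw [List.take_add_one]
      congr 1
      rw [List.getElem?_eq_getElem (by simpa using hkg)]
      simp
    rw [e, List.map_append, List.prod_append, ih (by omega)]
    simp only [List.map_cons, List.map_nil, List.prod_cons, List.prod_nil, mul_one]
    rw [mul_assoc, ← mul_assoc (h k), hh, one_mul]

private theorem tele' {G : Type*} [Group G] {g : ℕ} (h : ℕ → G) (hh : ∀ i, h i * h i = 1) :
    ((List.finRange g).map (fun i : Fin g => h (i : ℕ) * h ((i : ℕ) + 1))).prod
      = h 0 * h g := by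
  have := tele (g := g) h hh g le_rfl
  rwa [List.take_of_length_le (by simp)] at this

theorem rho_ex (g : ℕ) : ∃ ρ : SG g →* Wg g, IsRho ρ := by
  let f : Fin g ⊕ Fin g → Wg g := Sum.elim
    (fun i => wE g i * wS g * wO g i * wE g i) (fun i => wE g ((i : ℕ) + 1) * wE g i)
  have hrel : ∀ r ∈ ({((List.finRange g).map (fun i : Fin g =>
        FreeGroup.of (Sum.inl i) * FreeGroup.of (Sum.inr i) *
          (FreeGroup.of (Sum.inl i))⁻¹ * (FreeGroup.of (Sum.inr i))⁻¹)).prod} :
      Set (FreeGroup (Fin g ⊕ Fin g))), FreeGroup.lift f r = 1 := by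
    intro r hr
    rw [Set.mem_singleton_iff] at hr
    rw [hr, map_list_prod, List.map_map]
    have e : (FreeGroup.lift f : FreeGroup (Fin g ⊕ Fin g) → Wg g) ∘ (fun i : Fin g =>
        FreeGroup.of (Sum.inl i) * FreeGroup.of (Sum.inr i) *
          (FreeGroup.of (Sum.inl i))⁻¹ * (FreeGroup.of (Sum.inr i))⁻¹)
        = fun i : Fin g => zz g (i : ℕ) * zz g ((i : ℕ) + 1) := by
      funext i
      simp only [Function.comp_apply, map_mul, map_inv, FreeGroup.lift_apply_of]
      exact comm_AB g i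
    rw [e, tele' (zz g) (zz_sq g), zz_zero, zz_top, wS_sq]
  refine ⟨PresentedGroup.toGroup hrel, ?_, ?_⟩
  · intro i
    exact PresentedGroup.toGroup.of hrel
  · intro i
    exact PresentedGroup.toGroup.of hrel

theorem rho_P {g : ℕ} {ρ : SG g →* Wg g} (hρ : IsRho ρ) (k : ℕ) (hk : k ≤ g) :
    ρ (sP k) = wS g * (wE g k * wS g * wE g k) := by
  unfold sP
  rw [map_list_prod, List.map_map]
  have e : (ρ : SG g → Wg g) ∘ (fun k : Fin g => sg (Sum.inl k) * sg (Sum.inr k) *
      (sg (Sum.inl k))⁻¹ * (sg (Sum.inr k))⁻¹)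
      = fun i : Fin g => zz g (i : ℕ) * zz g ((i : ℕ) + 1) := by
    funext i
    simp only [Function.comp_apply, map_mul, map_inv, hρ.1, hρ.2]
    exact comm_AB g i
  rw [e, tele (zz g) (zz_sq g) k hk, zz_zero]
  rfl

theorem rho_B {g : ℕ} {ρ : SG g →* Wg g} (hρ : IsRho ρ) (k : ℕ) (hk : k ≤ g) :
    ρ (sB k) = wE g k * wE g 0 := by
  induction k with
  | zero => rw [sB_zero, map_one, wE_sq]
  | succ k ih =>
    have := sB_succ (⟨k, by omega⟩ : Fin g)
    simp only at this
    rw [this, map_mul, hρ.2, ih (by omega), mul_assoc, ← mul_assoc (wE g k), wE_sq, one_mul]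

theorem rho_par {g : ℕ} {ρ : SG g →* Wg g} (hρ : IsRho ρ)
    {c : Wg g →* Multiplicative (ZMod 2) × Multiplicative (ZMod 2)} (hc : IsCl c) (γ : SG g) :
    c (ρ γ) = 1 := by
  have hsq : ∀ x : Multiplicative (ZMod 2) × Multiplicative (ZMod 2), x * x = 1 := by decide
  have heven : ∀ n : ℕ, ∀ k : ZMod (2 * g + 2), ((2 * n : ℕ) : ZMod (2 * g + 2)) = k →
      par k = 0 := by
    intro n k hk
    unfold par
    rw [← hk, ZMod.val_natCast, Nat.mod_mod_of_dvd _ ⟨g + 1, by ring⟩]
    omega
  have hodd : ∀ n : ℕ, ∀ k : ZMod (2 * g + 2), ((2 * n + 1 : ℕ) : ZMod (2 * g + 2)) = k →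
      par k = 1 := by
    intro n k hk
    unfold par
    rw [← hk, ZMod.val_natCast, Nat.mod_mod_of_dvd _ ⟨g + 1, by ring⟩]
    omega
  have hS : c (wS g) = (Multiplicative.ofAdd 1, 1) := by
    unfold wS
    rw [hc, if_pos (heven 0 0 (by simp))]
  have hE : ∀ i, c (wE g i) = (1, Multiplicative.ofAdd 1) := by
    intro i
    unfold wE
    rw [hc, if_neg]
    rw [hodd i _ rfl]; norm_num
  have hO : ∀ i, c (wO g i) = (Multiplicative.ofAdd 1, 1) := by
    intro i
    unfold wO
    rw [hc, if_pos (heven (i + 1) _ (by ring_nf))]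
  have hgen : ∀ j : Fin g ⊕ Fin g, (c.comp ρ) (sg j) = 1 := by
    intro j
    rcases j with i | i
    · simp only [MonoidHom.comp_apply, hρ.1, map_mul, hS, hE, hO]
      decide
    · simp only [MonoidHom.comp_apply, hρ.2, map_mul, hE]
      decide
  have hone : c.comp ρ = 1 := by
    apply PresentedGroup.ext
    intro j
    exact hgen j
  have := DFunLike.congr_fun hone γ
  simpa using this

end Pool.Agent.Work.MP_d3656f_al
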