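import Mathlib
import Pool.Agent.Work.MP_d3656f_al.W.EmbA

/-!
# W/EmbC : the image has index (at most) four

`T = {1, s, E_0, s E_0}` with `s = wS`, `E_0 = wE 0`. Claim: `ρ(π) T` is closed under right
multiplication by letters; as it contains `1` it is everything (`simple_induction_right`).
Write `[γ] = ρ γ`, `a_i, b_i` generators, `P_i = sP i`, `β_i = sB i`, `z_i = E_i s E_i`;
`[β_i] = E_i E_0` (`rho_B`), `[P_i] = s z_i` (`rho_P`), `[a_i] = z_i O_i`, and `s, E_0` commute.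
For the letter `E_i` (`i ≤ g`):
* `1 * E_i = [β_i] E_0`; `E_0 * E_i = [β_i]⁻¹`;
* `s * E_i = [P_i β_i] s E_0`: `[P_i β_i] s E_0 = s E_i s E_i E_i E_0 s E_0 = s E_i s E_0 s E_0
  = s E_i`; and `s E_0 * E_i = [P_i β_i]⁻¹ s` (from the previous one, multiplied on the right by
  `E_i`: `s = [P_i β_i] s E_0 E_i`).
For the letter `O_i` (`i < g`): `[P_i a_i] = s z_i z_i O_i = s O_i`, so
* `s * O_i = [P_i a_i]`, `1 * O_i = [P_i a_i]⁻¹ s` (inverse of the previous one: `O_i s =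
  [P_i a_i]⁻¹`);
* `E_0 * O_i = [β_i⁻¹ a_i⁻¹ β_i] s E_0`: `E_0 = [β_i]⁻¹ E_i`, `E_i O_i = O_i E_i = [P_i a_i]⁻¹ s E_i
  = [P_i a_i]⁻¹ [P_i β_i] s E_0 = [a_i⁻¹ β_i] s E_0`; and `s E_0 * O_i = [β_i⁻¹ a_i β_i] E_0` (from
  the previous one multiplied by `O_i` on the right: `E_0 = [β_i⁻¹ a_i⁻¹ β_i] s E_0 O_i`).
For the letter `s`: `1 s = s`, `s s = 1`, `E_0 s = s E_0`, `s E_0 s = E_0`.
-/

set_option autoImplicit false

namespace Pool.Agent.Work.MP_d3656f_al

theorem rho_idx {g : ℕ} {ρ : SG g →* Wg g} (hρ : IsRho ρ) (w : Wg g) :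
    ∃ γ : SG g, ∃ t ∈ ({1, wS g, wE g 0, wS g * wE g 0} : Set (Wg g)), w = ρ γ * t := by
  have hs : wS g * wS g = 1 := wS_sq g
  have h0 : wE g 0 * wE g 0 = 1 := wE_sq g 0
  have hc : wS g * wE g 0 = wE g 0 * wS g := wS_wE0 g
  have hs' : ∀ x : Wg g, wS g * (wS g * x) = x := fun x => by rw [← mul_assoc, hs, one_mul]
  have h0' : ∀ x : Wg g, wE g 0 * (wE g 0 * x) = x := fun x => by rw [← mul_assoc, h0, one_mul]
  have hc' : ∀ x : Wg g, wS g * (wE g 0 * x) = wE g 0 * (wS g * x) := fun x => by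
    rw [← mul_assoc, hc, mul_assoc]
  have hsi : (wS g)⁻¹ = wS g := inv_eq_of_mul_eq_one_left hs
  have h0i : (wE g 0)⁻¹ = wE g 0 := inv_eq_of_mul_eq_one_left h0
  have key : ∀ t ∈ ({1, wS g, wE g 0, wS g * wE g 0} : Set (Wg g)), ∀ k,
      ∃ δ : SG g, ∃ t' ∈ ({1, wS g, wE g 0, wS g * wE g 0} : Set (Wg g)),
        t * (csW g).simple k = ρ δ * t' := by
    intro t ht k
    have m1 : (1 : Wg g) ∈ ({1, wS g, wE g 0, wS g * wE g 0} : Set (Wg g)) := by simp
    have m2 : wS g ∈ ({1, wS g, wE g 0, wS g * wE g 0} : Set (Wg g)) := by simp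
    have m3 : wE g 0 ∈ ({1, wS g, wE g 0, wS g * wE g 0} : Set (Wg g)) := by simp
    have m4 : wS g * wE g 0 ∈ ({1, wS g, wE g 0, wS g * wE g 0} : Set (Wg g)) := by simp
    rcases letter_cases k with hk | ⟨i, hi, hk⟩ | ⟨i, hi, hk⟩
    · rw [hk]
      rcases ht with rfl | rfl | rfl | rfl
      · exact ⟨1, _, m2, by rw [map_one]⟩
      · exact ⟨1, _, m1, by rw [map_one, hs, one_mul]⟩
      · exact ⟨1, _, m4, by rw [map_one, one_mul, hc]⟩
      · exact ⟨1, _, m3, by rw [map_one, one_mul, mul_assoc, ← hc, hs']⟩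
    · rw [hk]
      have hE : wE g i * wE g i = 1 := wE_sq g i
      have hE' : ∀ x : Wg g, wE g i * (wE g i * x) = x := fun x => by rw [← mul_assoc, hE, one_mul]
      have hEi : (wE g i)⁻¹ = wE g i := inv_eq_of_mul_eq_one_left hE
      have hB := rho_B hρ i hi
      have hP := rho_P hρ i hi
      rcases ht with rfl | rfl | rfl | rfl
      · refine ⟨sB i, _, m3, ?_⟩
        rw [hB]
        simp only [mul_assoc, h0, mul_one, one_mul]
      · refine ⟨sP i * sB i, _, m4, ?_⟩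
        rw [map_mul, hB, hP]
        simp only [mul_assoc, hE', hc', hs', h0, mul_one]
      · refine ⟨(sB i)⁻¹, _, m1, ?_⟩
        rw [map_inv, hB, mul_inv_rev, hEi, h0i, mul_one]
      · refine ⟨(sP i * sB i)⁻¹, _, m2, ?_⟩
        rw [map_inv, eq_inv_mul_iff_mul_eq, map_mul, hB, hP]
        simp only [mul_assoc, hE', hc', hs', h0', hE, mul_one]
    · rw [hk]
      have hE : wE g i * wE g i = 1 := wE_sq g i
      have hE' : ∀ x : Wg g, wE g i * (wE g i * x) = x := fun x => by rw [← mul_assoc, hE, one_mul]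
      have hEi : (wE g i)⁻¹ = wE g i := inv_eq_of_mul_eq_one_left hE
      have hO : wO g i * wO g i = 1 := wO_sq g i
      have hO' : ∀ x : Wg g, wO g i * (wO g i * x) = x := fun x => by rw [← mul_assoc, hO, one_mul]
      have hOi : (wO g i)⁻¹ = wO g i := inv_eq_of_mul_eq_one_left hO
      have hOE : wO g i * wE g i = wE g i * wO g i := wO_wE g i
      have hOE' : ∀ x : Wg g, wO g i * (wE g i * x) = wE g i * (wO g i * x) := fun x => by
        rw [← mul_assoc, hOE, mul_assoc]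
      have hB := rho_B hρ i hi.le
      have hP := rho_P hρ i hi.le
      have hA : ρ (sg (Sum.inl (⟨i, hi⟩ : Fin g))) = wE g i * wS g * wO g i * wE g i := hρ.1 ⟨i, hi⟩
      rcases ht with rfl | rfl | rfl | rfl
      · refine ⟨(sP i * sg (Sum.inl (⟨i, hi⟩ : Fin g)))⁻¹, _, m2, ?_⟩
        rw [map_inv, eq_inv_mul_iff_mul_eq, map_mul, hA, hP]
        simp only [mul_assoc, hE', hs', hOE', hO, hE, one_mul, mul_one]
      · refine ⟨sP i * sg (Sum.inl (⟨i, hi⟩ : Fin g)), _, m1, ?_⟩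
        rw [map_mul, hA, hP]
        simp only [mul_assoc, hE', hs', hOE, mul_one]
      · refine ⟨(sB i)⁻¹ * (sg (Sum.inl (⟨i, hi⟩ : Fin g)))⁻¹ * sB i, _, m4, ?_⟩
        rw [map_mul, map_mul, map_inv, map_inv, hA, hB]
        simp only [mul_inv_rev, hEi, h0i, hOi, hsi, mul_assoc, hE', hc', hs', h0, hc, h0', hs, mul_one]
      · refine ⟨(sB i)⁻¹ * sg (Sum.inl (⟨i, hi⟩ : Fin g)) * sB i, _, m3, ?_⟩
        rw [map_mul, map_mul, map_inv, hA, hB]
        simp only [mul_inv_rev, hEi, h0i, mul_assoc, hE', hc', h0, mul_one]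
  refine (csW g).simple_induction_right (p := fun w => ∃ γ : SG g,
    ∃ t ∈ ({1, wS g, wE g 0, wS g * wE g 0} : Set (Wg g)), w = ρ γ * t) w ?_ ?_
  · exact ⟨1, 1, by simp, by simp⟩
  · rintro w k ⟨γ, t, ht, rfl⟩
    obtain ⟨δ, t', ht', h⟩ := key t ht k
    refine ⟨γ * δ, t', ht', ?_⟩
    rw [mul_assoc, h, map_mul, mul_assoc]

end Pool.Agent.Work.MP_d3656f_al
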