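import Mathlib
import Pool.Agent.Work.MP_d3656f_al.W.EmbB
import Pool.Agent.Work.MP_d3656f_al.W.EmbC

/-!
# W/Emb : the surface group as a subgroup of index 4 of the reflection group (assembly, done)
-/

set_option autoImplicit false

namespace Pool.Agent.Work.MP_d3656f_al

theorem emb (g : ℕ) : ∃ ρ : SG g →* Wg g, Function.Injective ρ ∧
    (∃ T : Set (Wg g), T.Finite ∧ ∀ w : Wg g, ∃ γ : SG g, ∃ t ∈ T, w = ρ γ * t) ∧
    ∀ c : Wg g →* Multiplicative (ZMod 2) × Multiplicative (ZMod 2), IsCl c →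
      ∀ γ : SG g, c (ρ γ) = 1 := by
  obtain ⟨ρ, hρ⟩ := rho_ex g
  refine ⟨ρ, rho_inj hρ, ⟨{1, wS g, wE g 0, wS g * wE g 0}, ?_, rho_idx hρ⟩, ?_⟩
  · exact (((Set.finite_singleton _).insert _).insert _).insert _
  · intro c hc γ
    exact rho_par hρ hc γ

end Pool.Agent.Work.MP_d3656f_al
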