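import Mathlib
import Pool.Agent.Work.MP_d3656f_al.W.Defs

/-!
# W/Poly : the regular right angled polygon with `2 g + 2` sides

`N = 2 g + 2 ≥ 6`, `θ = 2 π / N ≤ π / 3`, `c = 1 / √(1 - cos θ)`, `s = √(cos θ) c > 0`,
`e k = (c cos (θ k), c sin (θ k), s)` with `k` replaced by `k.val`; `Q base (e k) = s`,
`Q (e k) (e l) = s² - c² cos (θ (k - l)) = c² (cos θ - cos (θ (k - l)))`.
* `k = l`: `c² (cos θ - 1) = -1`. Adjacent (`k - l = ± 1 mod N`): `0`.
* otherwise `θ (k - l)` is modulo `2 π` in `[2 θ, 2 π - 2 θ]`, so `cos (θ (k-l)) ≤ cos (2 θ)` and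
  `Q ≥ c² (cos θ - cos 2 θ) = (cos θ + 1 - 2 cos² θ)/(1 - cos θ) = 1 + 2 cos θ ≥ 1`.
* `bdd`: let `x ∈ Hyp`, `x = (r cos φ, r sin φ, x2)`, all `Q x (e k) ≥ 0`, i.e.
  `c r cos (φ - θ k) ≤ s x2`. Some `k` has `|φ - θ k| ≤ θ/2` modulo `2 π`, so
  `c r cos (θ/2) ≤ s x2`, `r² ≤ (cos θ / cos²(θ/2)) x2²`, `x2² = 1 + r²`, and
  `cos²(θ/2) - cos θ = sin²(θ/2)`, so `r² sin²(θ/2) ≤ cos θ`: `r` and `x2` are bounded.
-/

set_option autoImplicit false

namespace Pool.Agent.Work.MP_d3656f_al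

private theorem val_cast_eq {N : ℕ} [NeZero N] (m : ℤ) :
    ∃ j : ℤ, (((m : ZMod N)).val : ℤ) = m + N * j := by
  have h : (N : ℤ) ∣ (((m : ZMod N)).val : ℤ) - m := by
    rw [← ZMod.intCast_zmod_eq_zero_iff_dvd]
    push_cast
    simp
  obtain ⟨j, hj⟩ := h
  exact ⟨j, by linarith⟩

private theorem cos_val {N : ℕ} [NeZero N] (m : ℤ) (φ : ℝ) :
    Real.cos (φ - 2 * Real.pi / N * (((m : ZMod N)).val : ℝ)) =
      Real.cos (φ - 2 * Real.pi / N * (m : ℝ)) := by
  obtain ⟨j, hj⟩ := val_cast_eq (N := N) m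
  have hN : (N : ℝ) ≠ 0 := Nat.cast_ne_zero.2 (NeZero.ne N)
  have h1 : (((m : ZMod N)).val : ℝ) = (m : ℝ) + N * (j : ℝ) := by
    have := congrArg (fun z : ℤ => (z : ℝ)) hj
    push_cast at this
    exact this
  rw [h1]
  have h2 : φ - 2 * Real.pi / N * ((m : ℝ) + N * (j : ℝ)) =
      (φ - 2 * Real.pi / N * (m : ℝ)) - (j : ℝ) * (2 * Real.pi) := by
    field_simp
    ring
  rw [h2, Real.cos_sub_int_mul_two_pi]

private theorem cos_far {N d : ℕ} (hN : 4 ≤ N) (h2 : 2 ≤ d) (hd : d + 2 ≤ N) :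
    Real.cos (2 * Real.pi / N * d) ≤ Real.cos (2 * (2 * Real.pi / N)) := by
  have hNr : (4 : ℝ) ≤ N := by exact_mod_cast hN
  have hN0 : (0 : ℝ) < N := by linarith
  have hθ : 0 < 2 * Real.pi / N := by positivity
  have hNθ : (2 * Real.pi / N) * N = 2 * Real.pi := by field_simp
  have h2r : (2 : ℝ) ≤ d := by exact_mod_cast h2
  have hdr : (d : ℝ) + 2 ≤ N := by exact_mod_cast hd
  set θ := 2 * Real.pi / N with hθd
  by_cases hc : θ * d ≤ Real.pi
  · apply Real.cos_le_cos_of_nonneg_of_le_pi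
    · positivity
    · exact hc
    · nlinarith
  · push Not at hc
    have h3 : Real.cos (θ * d) = Real.cos (2 * Real.pi - θ * d) := by
      rw [Real.cos_two_pi_sub]
    rw [h3]
    apply Real.cos_le_cos_of_nonneg_of_le_pi
    · positivity
    · linarith
    · nlinarith

theorem poly_ex {g : ℕ} (hg : 2 ≤ g) : Nonempty (Poly g) := by
  set N : ℕ := 2 * g + 2 with hNdef
  have hN6 : 6 ≤ N := by omega
  have hNr : (6 : ℝ) ≤ N := by exact_mod_cast hN6
  have hN0 : (0 : ℝ) < N := by linarith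
  haveI : NeZero N := ⟨by omega⟩
  set θ : ℝ := 2 * Real.pi / N with hθ
  have hθ0 : 0 < θ := by positivity
  have hNθ : θ * N = 2 * Real.pi := by rw [hθ]; field_simp
  have hθ3 : θ ≤ Real.pi / 3 := by nlinarith [Real.pi_pos]
  have hcos : 1 / 2 ≤ Real.cos θ := by
    rw [← Real.cos_pi_div_three]
    apply Real.cos_le_cos_of_nonneg_of_le_pi hθ0.le _ hθ3
    linarith [Real.pi_pos]
  have hcos1 : Real.cos θ < 1 := by
    rw [← Real.cos_zero]
    apply Real.cos_lt_cos_of_nonneg_of_le_pi le_rfl _ hθ0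
    linarith [Real.pi_pos]
  set C : ℝ := Real.cos θ with hC
  set c : ℝ := Real.sqrt (1 / (1 - C)) with hc
  set s : ℝ := Real.sqrt (C / (1 - C)) with hs
  have h1C : 0 < 1 - C := by linarith
  have hc2 : c * c = 1 / (1 - C) := Real.mul_self_sqrt (by positivity)
  have hs2 : s * s = C / (1 - C) := Real.mul_self_sqrt (by
    apply div_nonneg _ h1C.le
    linarith)
  have hc0 : 0 < c := Real.sqrt_pos.2 (by positivity)
  have hs0 : 0 < s := Real.sqrt_pos.2 (by
    apply div_pos _ h1C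
    linarith)
  have hQ : ∀ α β : ℝ, Q ![c * Real.cos α, c * Real.sin α, s] ![c * Real.cos β, c * Real.sin β, s] =
      (C - Real.cos (α - β)) / (1 - C) := by
    intro α β
    have h1 : Q ![c * Real.cos α, c * Real.sin α, s] ![c * Real.cos β, c * Real.sin β, s] =
        s * s - (c * c) * (Real.cos α * Real.cos β + Real.sin α * Real.sin β) := by
      simp only [Q, Matrix.cons_val_zero, Matrix.cons_val_one, Matrix.cons_val]
      ring
    rw [h1, hc2, hs2, Real.cos_sub]
    field_simp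
  have hfar : ∀ k l : ZMod N, l.val < k.val → l ≠ k + 1 → k ≠ l + 1 →
      1 ≤ (C - Real.cos (θ * (k.val : ℝ) - θ * (l.val : ℝ))) / (1 - C) := by
    intro k l hlt h1 h2
    obtain ⟨d, hd⟩ : ∃ d, k.val = l.val + d := ⟨k.val - l.val, by omega⟩
    have hkN := ZMod.val_lt k
    have hd1 : d ≠ 0 := by omega
    have hd2 : d ≠ 1 := by
      rintro rfl
      apply h2
      have : ((k.val : ℕ) : ZMod N) = ((l.val + 1 : ℕ) : ZMod N) := by rw [hd]
      push_cast at this
      simpa using this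
    have hd3 : d + 1 ≠ N := by
      intro hdN
      apply h1
      have h3 : k.val + 1 = l.val + N := by omega
      have : ((k.val + 1 : ℕ) : ZMod N) = ((l.val + N : ℕ) : ZMod N) := by rw [h3]
      push_cast at this
      simpa using this.symm
    have h4 := cos_far (N := N) (d := d) (by omega) (by omega) (by omega)
    have h5 : θ * (k.val : ℝ) - θ * (l.val : ℝ) = 2 * Real.pi / N * d := by
      rw [hd, ← hθ]
      push_cast
      ring
    rw [h5, le_div_iff₀ h1C]
    rw [← hθ] at h4 ⊢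
    have h6 : Real.cos (2 * θ) = 2 * C ^ 2 - 1 := by rw [Real.cos_two_mul]
    rw [h6] at h4
    nlinarith
  refine ⟨⟨fun k => ![c * Real.cos (θ * (k.val : ℝ)), c * Real.sin (θ * (k.val : ℝ)), s], s, hs0,
    ?_, ?_, ?_, ?_, ?_⟩⟩
  · intro k
    rw [hQ, sub_self, Real.cos_zero]
    field_simp
    ring
  · intro k
    rw [hQ]
    have h1 : (k + 1 : ZMod N) = (((k.val : ℤ) + 1 : ℤ) : ZMod N) := by
      push_cast
      simp
    have h2 := cos_val (N := N) ((k.val : ℤ) + 1) (θ * (k.val : ℝ))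
    rw [← h1, ← hθ] at h2
    have h3 : θ * (k.val : ℝ) - θ * (((k.val : ℤ) + 1 : ℤ) : ℝ) = -θ := by
      push_cast
      ring
    rw [h3, Real.cos_neg] at h2
    rw [h2, ← hC, sub_self, zero_div]
  · intro k l hkl h1 h2
    rcases lt_trichotomy l.val k.val with h | h | h
    · rw [hQ]
      exact hfar k l h h1 h2
    · exact absurd (ZMod.val_injective N h.symm) hkl
    · rw [hQ]
      have h3 := hfar l k h h2 h1
      rwa [← Real.cos_neg, neg_sub] at h3
  · intro k
    simp [Q, base]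
  · refine ⟨1 + 2 * C / (1 - C), ?_⟩
    intro x hx hk
    obtain ⟨hx1, hx2⟩ := hx
    set z : ℂ := ⟨x 0, x 1⟩ with hz
    set r : ℝ := ‖z‖ with hr
    set φ : ℝ := z.arg with hφ
    have hx0 : x 0 = r * Real.cos φ := by
      have := Complex.norm_mul_cos_arg z
      rw [← hr, ← hφ] at this
      exact this.symm
    have hx1' : x 1 = r * Real.sin φ := by
      have := Complex.norm_mul_sin_arg z
      rw [← hr, ← hφ] at this
      exact this.symm
    have hr0 : 0 ≤ r := norm_nonneg z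
    have hxx : x 2 * x 2 = 1 + r * r := by
      have h1 : x 2 * x 2 - x 0 * x 0 - x 1 * x 1 = 1 := hx1
      rw [hx0, hx1'] at h1
      have h2 := Real.cos_sq_add_sin_sq φ
      nlinarith
    set m : ℤ := round (φ / θ) with hm
    have hround : |φ - θ * (m : ℝ)| ≤ θ / 2 := by
      have h1 := abs_sub_round (φ / θ)
      rw [← hm] at h1
      have h2 : φ - θ * (m : ℝ) = θ * (φ / θ - m) := by field_simp
      rw [h2, abs_mul, abs_of_pos hθ0]
      nlinarith
    have hcm : Real.cos (θ / 2) ≤ Real.cos (φ - θ * (m : ℝ)) := by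
      rw [← Real.cos_abs (φ - θ * (m : ℝ))]
      apply Real.cos_le_cos_of_nonneg_of_le_pi (abs_nonneg _) _ hround
      linarith [Real.pi_pos]
    have h3 := hk (m : ZMod N)
    have h4 := cos_val (N := N) m φ
    rw [← hθ] at h4
    have h5 : Q x ![c * Real.cos (θ * (((m : ZMod N)).val : ℝ)),
        c * Real.sin (θ * (((m : ZMod N)).val : ℝ)), s] =
        x 2 * s - r * c * Real.cos (φ - θ * (m : ℝ)) := by
      rw [← h4, Real.cos_sub]
      simp only [Q, Matrix.cons_val_zero, Matrix.cons_val_one, Matrix.cons_val]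
      rw [hx0, hx1']
      ring
    have h6 : 0 ≤ x 2 * s - r * c * Real.cos (φ - θ * (m : ℝ)) := by
      rw [← h5]
      exact h3
    have h7 : 0 < Real.cos (θ / 2) := by
      apply Real.cos_pos_of_mem_Ioo
      constructor <;> linarith [Real.pi_pos]
    have h8 : r * c * Real.cos (θ / 2) ≤ x 2 * s := by
      have : r * c * Real.cos (θ / 2) ≤ r * c * Real.cos (φ - θ * (m : ℝ)) :=
        mul_le_mul_of_nonneg_left hcm (by positivity)
      linarith
    have h9 : (r * c * Real.cos (θ / 2)) ^ 2 ≤ (x 2 * s) ^ 2 :=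
      pow_le_pow_left₀ (by positivity) h8 2
    have h10 : Real.cos (θ / 2) ^ 2 = (1 + C) / 2 := by
      rw [Real.cos_sq, hC]
      have : 2 * (θ / 2) = θ := by ring
      rw [this]
      ring
    have h11 : (r * c * Real.cos (θ / 2)) ^ 2 = r * r * (1 / (1 - C)) * ((1 + C) / 2) := by
      rw [← hc2, ← h10]
      ring
    have h12 : (x 2 * s) ^ 2 = (1 + r * r) * (C / (1 - C)) := by
      rw [← hs2, ← hxx]
      ring
    rw [h11, h12] at h9
    have h13 : r * r * (1 + C) / 2 ≤ (1 + r * r) * C := by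
      have e1 : r * r * (1 / (1 - C)) * ((1 + C) / 2) * (1 - C) = r * r * (1 + C) / 2 := by
        field_simp
      have e2 : (1 + r * r) * (C / (1 - C)) * (1 - C) = (1 + r * r) * C := by
        field_simp
      rw [← e1, ← e2]
      exact mul_le_mul_of_nonneg_right h9 h1C.le
    have h14 : r * r ≤ 2 * C / (1 - C) := by
      rw [le_div_iff₀ h1C]
      nlinarith
    have h15 : x 2 * x 2 ≤ 1 + 2 * C / (1 - C) := by
      rw [hxx]
      linarith
    have h16 : 0 ≤ 2 * C / (1 - C) := by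
      apply div_nonneg _ h1C.le
      linarith
    by_contra hcon
    push Not at hcon
    nlinarith

end Pool.Agent.Work.MP_d3656f_al
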