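import Mathlib
import Pool.Agent.Work.MP_d3656f_al.W.Defs
import Pool.Agent.Work.MP_d3656f_al.M.Min

/-!
# W/Rep : the reflection representation and the parity homomorphism

* The reflection `r k : x ↦ x + 2 Q x (e k) e k` (a matrix `1 + 2 e k ⊗ (J e k)`); it is an involution
  because `Q (e k) (e k) = -1`, preserves `Q`, and `r k`, `r (k+1)` commute because
  `Q (e k) (e (k+1)) = 0`. So `(r i r j)^(M i j) = 1` for the Coxeter matrix `cox g`
  (`i = j`: `r i r i = 1`; adjacent: commuting involutions; otherwise exponent `0`), and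
  `CoxeterSystem.lift` gives `R`.
* `rep_Q`: induction on `w` (`simple_induction_left`). `rep_fut`: the image of `base` under a
  product of reflections is in `Hyp`: `r k` maps `Hyp` to `Hyp`: for `x ∈ Hyp`,
  `Q base (r k x)`: `r k x` has `Q = 1`, so its time coordinate is not `0`; if it were negative then
  `Q x (r k x) < 0`, but `Q x (r k x) = 1 + 2 (Q x (e k))^2 > 0`.
* `rep_det`: `det (r k) = -1` (`det (1 + u vᵀ) = 1 + vᵀ u`, here `1 + 2 Q (e k) (e k) = -1`), so
  `det ∘ R` and the product of the two components of `c`, as a sign, agree on the generators; hence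
  `c w = 1` implies `det (R w) = 1`.
* `cl_ex`: lift of the indicated map (the target is commutative of exponent 2).
-/

set_option autoImplicit false

namespace Pool.Agent.Work.MP_d3656f_al

private noncomputable def rf (e : V) : Matrix (Fin 3) (Fin 3) ℝ :=
  Matrix.of fun i j => (if i = j then 1 else 0) + 2 * Q (Pi.single j 1) e * e i

private theorem rf_apply (e x : V) : (rf e).mulVec x = x + (2 * Q x e) • e := by
  ext i
  fin_cases i <;>
    simp [rf, Matrix.mulVec, dotProduct, Fin.sum_univ_three, Q, Pi.single_apply] <;> ring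

private theorem mat_ext {A B : Matrix (Fin 3) (Fin 3) ℝ} (h : ∀ x, A.mulVec x = B.mulVec x) :
    A = B := by
  apply Matrix.toLin'.injective
  apply LinearMap.ext
  intro x
  rw [Matrix.toLin'_apply, Matrix.toLin'_apply, h x]

private theorem rf_sq {e : V} (he : Q e e = -1) : rf e * rf e = 1 := by
  refine mat_ext fun x => ?_
  rw [← Matrix.mulVec_mulVec, rf_apply, rf_apply, Matrix.one_mulVec, Q_add_left, Q_smul_left, he]
  ext i
  simp only [Pi.add_apply, Pi.smul_apply, smul_eq_mul]
  ring

private theorem rf_comm {e f : V} (h : Q e f = 0) : rf e * rf f = rf f * rf e := by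
  have h' : Q f e = 0 := by rw [Q_symm, h]
  refine mat_ext fun x => ?_
  rw [← Matrix.mulVec_mulVec, ← Matrix.mulVec_mulVec, rf_apply, rf_apply, rf_apply, rf_apply,
    Q_add_left, Q_smul_left, Q_add_left, Q_smul_left, h, h']
  ext i
  simp only [Pi.add_apply, Pi.smul_apply, smul_eq_mul]
  ring

private theorem rf_det {e : V} (he : Q e e = -1) : (rf e).det = -1 := by
  rw [Matrix.det_fin_three]
  simp only [rf, Matrix.of_apply, Q, Pi.single_apply]
  simp only [Q] at he
  simp
  linear_combination 2 * he

private theorem rf_hyp {e x : V} (he : Q e e = -1) (hx : x ∈ Hyp) : x + (2 * Q x e) • e ∈ Hyp := by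
  have h1 : Q (x + (2 * Q x e) • e) (x + (2 * Q x e) • e) = 1 := by
    rw [Q_add_left, Q_add_right, Q_add_right, Q_smul_left, Q_smul_left, Q_smul_right, Q_smul_right,
      he, hx.1, Q_symm e x]
    ring
  refine ⟨h1, ?_⟩
  by_contra h2
  have h3 : (x + (2 * Q x e) • e) 2 ≤ 0 := not_lt.1 h2
  set y := x + (2 * Q x e) • e with hy
  have h4 : Q x y = 1 + 2 * (Q x e) ^ 2 := by
    rw [hy, Q_add_right, Q_smul_right, hx.1]
    ring
  have h5 : y 2 ≠ 0 := by
    intro h6
    rw [Q, h6] at h1
    nlinarith [sq_nonneg (y 0), sq_nonneg (y 1)]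
  have h6 : -y ∈ Hyp := by
    refine ⟨?_, ?_⟩
    · have : Q (-y) (-y) = Q y y := by
        simp only [Q, Pi.neg_apply]
        ring
      rw [this, h1]
    · rw [Pi.neg_apply]
      have := lt_of_le_of_ne h3 h5
      linarith
  have h7 := Q_one_le hx h6
  have h8 : Q x (-y) = -Q x y := by
    simp only [Q, Pi.neg_apply]
    ring
  rw [h8, h4] at h7
  nlinarith [sq_nonneg (Q x e)]

theorem rep_ex {g : ℕ} (P : Poly g) : ∃ R : Wg g →* Matrix (Fin 3) (Fin 3) ℝ, IsRep P R := by
  have hl : (cox g).IsLiftable (fun k => rf (P.e k)) := by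
    intro i j
    by_cases h : i = j
    · subst h
      have h1 : (cox g) i i = 1 := (cox g).diagonal i
      rw [h1, pow_one]
      exact rf_sq (P.self i)
    · have hM : (cox g) i j = if j = i + 1 ∨ i = j + 1 then 2 else 0 := by
        change (Matrix.of fun i j => if i = j then 1 else if j = i + 1 ∨ i = j + 1 then 2 else 0 :
          Matrix (ZMod (2 * g + 2)) (ZMod (2 * g + 2)) ℕ) i j = _
        rw [Matrix.of_apply, if_neg h]
      rw [hM]
      by_cases h2 : j = i + 1 ∨ i = j + 1
      · rw [if_pos h2, pow_two]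
        have h3 : Q (P.e i) (P.e j) = 0 := by
          rcases h2 with h2 | h2
          · rw [h2]
            exact P.adj0 i
          · rw [Q_symm, h2]
            exact P.adj0 j
        have h4 := rf_comm h3
        calc rf (P.e i) * rf (P.e j) * (rf (P.e i) * rf (P.e j))
            = rf (P.e i) * rf (P.e j) * (rf (P.e j) * rf (P.e i)) := by rw [h4]
          _ = rf (P.e i) * (rf (P.e j) * rf (P.e j)) * rf (P.e i) := by
              simp only [mul_assoc]
          _ = 1 := by rw [rf_sq (P.self j), mul_one, rf_sq (P.self i)]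
      · rw [if_neg h2, pow_zero]
  refine ⟨(csW g).lift ⟨_, hl⟩, fun k x => ?_⟩
  rw [(csW g).lift_apply_simple hl k]
  exact rf_apply _ _

theorem cl_ex (g : ℕ) : ∃ c : Wg g →* Multiplicative (ZMod 2) × Multiplicative (ZMod 2),
    IsCl c := by
  have hsq : ∀ x : Multiplicative (ZMod 2), x * x = 1 := by decide
  have hsq' : ∀ x : Multiplicative (ZMod 2) × Multiplicative (ZMod 2), x * x = 1 := fun x =>
    Prod.ext (hsq x.1) (hsq x.2)
  have hl : (cox g).IsLiftable (fun k : ZMod (2 * g + 2) =>
      if par k = 0 then ((Multiplicative.ofAdd 1, 1) :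
        Multiplicative (ZMod 2) × Multiplicative (ZMod 2)) else (1, Multiplicative.ofAdd 1)) := by
    intro i j
    by_cases h : i = j
    · subst h
      have h1 : (cox g) i i = 1 := (cox g).diagonal i
      rw [h1, pow_one]
      exact hsq' _
    · have hM : (cox g) i j = if j = i + 1 ∨ i = j + 1 then 2 else 0 := by
        change (Matrix.of fun i j => if i = j then 1 else if j = i + 1 ∨ i = j + 1 then 2 else 0 :
          Matrix (ZMod (2 * g + 2)) (ZMod (2 * g + 2)) ℕ) i j = _
        rw [Matrix.of_apply, if_neg h]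
      rw [hM]
      by_cases h2 : j = i + 1 ∨ i = j + 1
      · rw [if_pos h2, pow_two]
        exact hsq' _
      · rw [if_neg h2, pow_zero]
  refine ⟨(csW g).lift ⟨_, hl⟩, fun k => ?_⟩
  rw [(csW g).lift_apply_simple hl k]

theorem rep_Q {g : ℕ} {P : Poly g} {R : Wg g →* Matrix (Fin 3) (Fin 3) ℝ} (hR : IsRep P R)
    (w : Wg g) (x y : V) : Q ((R w).mulVec x) ((R w).mulVec y) = Q x y := by
  refine (csW g).simple_induction_left (p := fun w => Q ((R w).mulVec x) ((R w).mulVec y) = Q x y)
    w ?_ ?_
  · rw [map_one, Matrix.one_mulVec, Matrix.one_mulVec]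
  · intro w k ih
    rw [map_mul, ← Matrix.mulVec_mulVec, ← Matrix.mulVec_mulVec, hR, hR, Q_add_left, Q_add_right,
      Q_add_right, Q_smul_left, Q_smul_left, Q_smul_right, Q_smul_right, P.self, ih,
      Q_symm (P.e k)]
    ring

theorem rep_hyp {g : ℕ} {P : Poly g} {R : Wg g →* Matrix (Fin 3) (Fin 3) ℝ} (hR : IsRep P R)
    (w : Wg g) {x : V} (hx : x ∈ Hyp) : (R w).mulVec x ∈ Hyp := by
  refine (csW g).simple_induction_left (p := fun w => (R w).mulVec x ∈ Hyp) w ?_ ?_
  · rw [map_one, Matrix.one_mulVec]
    exact hx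
  · intro w k ih
    rw [map_mul, ← Matrix.mulVec_mulVec, hR]
    exact rf_hyp (P.self k) ih

theorem rep_det {g : ℕ} {P : Poly g} {R : Wg g →* Matrix (Fin 3) (Fin 3) ℝ} (hR : IsRep P R)
    {c : Wg g →* Multiplicative (ZMod 2) × Multiplicative (ZMod 2)} (hc : IsCl c) (w : Wg g)
    (hw : c w = 1) : (R w).det = 1 := by
  have hs : ∀ k, (R ((csW g).simple k)).det = -1 := by
    intro k
    have h1 : R ((csW g).simple k) = rf (P.e k) :=
      mat_ext fun x => by rw [hR, rf_apply]
    rw [h1, rf_det (P.self k)]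
  have hone : ∀ x : Multiplicative (ZMod 2), Multiplicative.ofAdd 1 * x = 1 ↔ x ≠ 1 := by decide
  have key : ∀ w : Wg g, (R w).det = if (c w).1 * (c w).2 = 1 then 1 else -1 := by
    intro w
    refine (csW g).simple_induction_left
      (p := fun w => (R w).det = if (c w).1 * (c w).2 = 1 then 1 else -1) w ?_ ?_
    · rw [map_one, map_one, Matrix.det_one]
      simp
    · intro w k ih
      have h1 : (c ((csW g).simple k * w)).1 * (c ((csW g).simple k * w)).2
          = Multiplicative.ofAdd 1 * ((c w).1 * (c w).2) := by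
        rw [map_mul, hc]
        split_ifs
        · simp [mul_assoc]
        · simp [mul_left_comm]
      rw [map_mul, Matrix.det_mul, hs, ih, h1]
      by_cases h2 : (c w).1 * (c w).2 = 1
      · rw [if_pos h2, if_neg]
        · ring
        · rw [hone]
          exact fun h3 => h3 h2
      · rw [if_neg h2, if_pos ((hone _).2 h2)]
        ring
  rw [key w, hw]
  simp

end Pool.Agent.Work.MP_d3656f_al
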