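import Mathlib
import Pool.Agent.Work.MP_d3656f_al.W.Rep

/-!
# W/Tile : the tiling inequalities

Let `σ ≥ 0` and `Q x (e k) ≥ σ` for all `k`. Claim for all `w` (write `w x` for `(R w).mulVec x`):
(1) if `k` is not a left descent of `w` then `Q (w x) (e k) ≥ σ`;
(2) if `k` is a left descent of `w` then `Q (w x) (e k) ≤ -σ`;
(3) if `k` is a left descent of `w` and `l` is different from `k, k+1` and `k ≠ l+1` then
    `Q (w x) (e k) + Q (w x) (e l) ≥ 2 σ`.
Induction on the length of `w`; `w = 1` is clear (no descents, `not_isLeftDescent_one`). Note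
`Q (s_k y) (e l) = Q y (s_k (e l)) = Q y (e l) + 2 Q (e k) (e l) Q y (e k)`, in particular
`Q (s_k y) (e k) = - Q y (e k)`.
(2): `w = s_k w''` with `w'' = s_k w` shorter, `k` not a left descent of `w''`; (1) for `w''`.
(3): `w = s_k w''`, `u = Q (w'' x) (e k) ≥ σ` by (1) for `w''`, `t = Q (w'' x) (e l)`,
`β = Q (e k) (e l) ≥ 1` (`Poly.far`). The sum in (3) is `- u + t + 2 β u = t + (2 β - 1) u`. If `l`
is not a left descent of `w''` then `t ≥ σ` and the sum is `≥ 2 σ`. If `l` is a left descent of
`w''` then (3) for `w''` (with `l, k` exchanged) gives `t + u ≥ 2 σ` and the sum is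
`t + u + (2 β - 2) u ≥ 2 σ`.
(1): `w ≠ 1`; let `j` be a left descent of `w` (`exists_leftDescent_of_ne_one`), `j ≠ k`. If `j` and
`k` are not adjacent then (3) for `w` and the pair `(j, k)` gives
`Q (w x) (e k) ≥ 2 σ - Q (w x) (e j) ≥ 2 σ + σ ≥ σ` using (2). If they are adjacent: `w = s_j w'`,
`Q (w x) (e k) = Q (w' x) (e k)` as `Q (e j) (e k) = 0`, and `k` is not a left descent of `w'`:
otherwise `s_k w = s_k s_j w' = s_j s_k w'` has length `≤ 1 + (len w' - 1) = len w' < len w`,
but `k` is not a left descent of `w`. So (1) for `w'`.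
-/

set_option autoImplicit false

namespace Pool.Agent.Work.MP_d3656f_al

private theorem rstep {g : ℕ} {P : Poly g} {R : Wg g →* Matrix (Fin 3) (Fin 3) ℝ}
    (hR : IsRep P R) (x : V) (w : Wg g) (k l : ZMod (2 * g + 2)) :
    Q ((R ((csW g).simple k * w)).mulVec x) (P.e l) =
      Q ((R w).mulVec x) (P.e l) + 2 * Q ((R w).mulVec x) (P.e k) * Q (P.e k) (P.e l) := by
  rw [map_mul, ← Matrix.mulVec_mulVec, hR, Q_add_left, Q_smul_left]

private theorem cox_adj {g : ℕ} {i j : ZMod (2 * g + 2)} (h : i ≠ j)
    (h2 : j = i + 1 ∨ i = j + 1) : (cox g) i j = 2 := by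
  change (Matrix.of fun i j => if i = j then 1 else if j = i + 1 ∨ i = j + 1 then 2 else 0 :
    Matrix (ZMod (2 * g + 2)) (ZMod (2 * g + 2)) ℕ) i j = _
  rw [Matrix.of_apply, if_neg h, if_pos h2]

private theorem simple_comm {g : ℕ} {i j : ZMod (2 * g + 2)} (h : i ≠ j)
    (h2 : j = i + 1 ∨ i = j + 1) :
    (csW g).simple i * (csW g).simple j = (csW g).simple j * (csW g).simple i := by
  have h1 := (csW g).simple_mul_simple_pow i j
  rw [cox_adj h h2, pow_two] at h1
  have h3 := (csW g).inv_simple i
  have h4 := (csW g).inv_simple j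
  have h5 : (csW g).simple i * (csW g).simple j = ((csW g).simple i * (csW g).simple j)⁻¹ :=
    eq_inv_of_mul_eq_one_left h1
  rw [mul_inv_rev, h3, h4] at h5
  exact h5

theorem tile {g : ℕ} {P : Poly g} {R : Wg g →* Matrix (Fin 3) (Fin 3) ℝ} (hR : IsRep P R)
    {σ : ℝ} (hσ : 0 ≤ σ) {x : V} (hx : ∀ k, σ ≤ Q x (P.e k)) (w : Wg g) :
    (∀ k, ¬ (csW g).IsLeftDescent w k → σ ≤ Q ((R w).mulVec x) (P.e k)) ∧
    (∀ k, (csW g).IsLeftDescent w k → Q ((R w).mulVec x) (P.e k) ≤ -σ) ∧
    (∀ k l, (csW g).IsLeftDescent w k → k ≠ l → l ≠ k + 1 → k ≠ l + 1 →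
      2 * σ ≤ Q ((R w).mulVec x) (P.e k) + Q ((R w).mulVec x) (P.e l)) := by
  have key : ∀ n : ℕ, ∀ w : Wg g, (csW g).length w = n →
      (∀ k, ¬ (csW g).IsLeftDescent w k → σ ≤ Q ((R w).mulVec x) (P.e k)) ∧
      (∀ k, (csW g).IsLeftDescent w k → Q ((R w).mulVec x) (P.e k) ≤ -σ) ∧
      (∀ k l, (csW g).IsLeftDescent w k → k ≠ l → l ≠ k + 1 → k ≠ l + 1 →
        2 * σ ≤ Q ((R w).mulVec x) (P.e k) + Q ((R w).mulVec x) (P.e l)) := by
    intro n
    induction n with
    | zero =>
      intro w hw
      rw [(csW g).length_eq_zero_iff] at hw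
      subst hw
      rw [map_one, Matrix.one_mulVec]
      refine ⟨fun k _ => hx k, fun k hk => ?_, fun k l hk => ?_⟩
      · exact absurd hk ((csW g).not_isLeftDescent_one k)
      · exact absurd hk ((csW g).not_isLeftDescent_one k)
    | succ n ih =>
      intro w hw
      have hlen : ∀ k, (csW g).IsLeftDescent w k →
          (csW g).length ((csW g).simple k * w) = n := by
        intro k hk
        have h1 := (csW g).isLeftDescent_iff.1 hk
        omega
      have hdes : ∀ k, (csW g).IsLeftDescent w k →
          ¬ (csW g).IsLeftDescent ((csW g).simple k * w) k := fun k hk =>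
        (csW g).isLeftDescent_iff_not_isLeftDescent_mul.1 hk
      have hst : ∀ k l, Q ((R w).mulVec x) (P.e l) =
          Q ((R ((csW g).simple k * w)).mulVec x) (P.e l) +
          2 * Q ((R ((csW g).simple k * w)).mulVec x) (P.e k) * Q (P.e k) (P.e l) := by
        intro k l
        rw [← rstep hR, (csW g).simple_mul_simple_cancel_left]
      have hself : ∀ k, Q ((R w).mulVec x) (P.e k) =
          -Q ((R ((csW g).simple k * w)).mulVec x) (P.e k) := by
        intro k
        rw [hst k k, P.self]
        ring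
      have h2 : ∀ k, (csW g).IsLeftDescent w k → Q ((R w).mulVec x) (P.e k) ≤ -σ := by
        intro k hk
        have h3 := (ih _ (hlen k hk)).1 k (hdes k hk)
        rw [hself k]
        linarith
      have h3 : ∀ k l, (csW g).IsLeftDescent w k → k ≠ l → l ≠ k + 1 → k ≠ l + 1 →
          2 * σ ≤ Q ((R w).mulVec x) (P.e k) + Q ((R w).mulVec x) (P.e l) := by
        intro k l hk hkl hl1 hk1
        obtain ⟨a1, -, a3⟩ := ih _ (hlen k hk)
        have b1 := a1 k (hdes k hk)
        have b2 := P.far k l hkl hl1 hk1
        rw [hself k, hst k l]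
        set u := Q ((R ((csW g).simple k * w)).mulVec x) (P.e k) with hu
        set t := Q ((R ((csW g).simple k * w)).mulVec x) (P.e l) with ht
        set β := Q (P.e k) (P.e l) with hβ
        have hu0 : 0 ≤ u := hσ.trans b1
        by_cases hld : (csW g).IsLeftDescent ((csW g).simple k * w) l
        · have b3 := a3 l k hld (Ne.symm hkl) hk1 hl1
          rw [← hu, ← ht] at b3
          nlinarith [mul_nonneg (sub_nonneg.2 b2) hu0]
        · have b3 := a1 l hld
          rw [← ht] at b3
          nlinarith [mul_nonneg (sub_nonneg.2 b2) hu0]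
      refine ⟨?_, h2, h3⟩
      intro k hk
      have hw1 : w ≠ 1 := by
        intro h
        rw [h, (csW g).length_one] at hw
        omega
      obtain ⟨j, hj⟩ := (csW g).exists_leftDescent_of_ne_one hw1
      have hjk : j ≠ k := by
        intro h
        rw [h] at hj
        exact hk hj
      by_cases hadj : k = j + 1 ∨ j = k + 1
      · have h0 : Q (P.e j) (P.e k) = 0 := by
          rcases hadj with h | h
          · rw [h]
            exact P.adj0 j
          · rw [Q_symm, h]
            exact P.adj0 k
        rw [hst j k, h0, mul_zero, add_zero]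
        refine (ih _ (hlen j hj)).1 k ?_
        intro hkd
        apply hk
        have c1 : (csW g).length ((csW g).simple k * ((csW g).simple j * w)) < n := by
          have := hlen j hj
          unfold CoxeterSystem.IsLeftDescent at hkd
          omega
        have c2 : (csW g).simple k * w =
            (csW g).simple j * ((csW g).simple k * ((csW g).simple j * w)) := by
          rw [← mul_assoc ((csW g).simple k), ← simple_comm hjk hadj, mul_assoc,
            (csW g).simple_mul_simple_cancel_left]
        have c3 := (csW g).length_mul_le ((csW g).simple j)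
          ((csW g).simple k * ((csW g).simple j * w))
        rw [(csW g).length_simple, ← c2] at c3
        unfold CoxeterSystem.IsLeftDescent
        omega
      · rw [not_or] at hadj
        have d1 := h3 j k hj hjk hadj.1 hadj.2
        have d2 := h2 j hj
        linarith
  exact key _ w rfl

end Pool.Agent.Work.MP_d3656f_al
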