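import Mathlib
import Pool.Agent.Work.MP_d3656f_al.W.Tile
import Pool.Agent.Work.MP_d3656f_al.M.Ptol

/-!
# W/Prop : the reflection group is proper and cocompact

* `wlen`: `1 + 2 s² len w ≤ Q base (w base)`. Induction on the length: `w = s_k w'` with `k` a left
  descent; `Q base (s_k y) = Q base y + 2 Q y (e k) Q base (e k) = Q base y + 2 s Q y (e k)` with
  `y = w' base` and `Q y (e k) ≥ s` by `tile` (`x = base`, `σ = s`; `k` is not a left descent of
  `w'`).
* `wprop`: bounded length, and only finitely many words of given length (`ZMod (2g+2)` is finite).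
* `wcoc`: let `x ∈ Hyp`. For every `K` the set `{w | Q base (w x) ≤ K}` is finite, because
  `Q base (w base) ≤ 4 Q base (w x) Q (w x) (w base) = 4 Q base (w x) Q x base`. So there is `w`
  minimising `Q base (w x)`; let `y = w x`. For every `k`:
  `Q base y ≤ Q base (s_k y) = Q base y + 2 s Q y (e k)`, so `Q y (e k) ≥ 0`. By `Poly.bdd`
  `Q y base = y 2 ≤ R0`, i.e. `Q x (w⁻¹ base) ≤ R0`.
-/

set_option autoImplicit false

namespace Pool.Agent.Work.MP_d3656f_al

private theorem bstep {g : ℕ} {P : Poly g} {R : Wg g →* Matrix (Fin 3) (Fin 3) ℝ}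
    (hR : IsRep P R) (x : V) (w : Wg g) (k : ZMod (2 * g + 2)) :
    Q base ((R ((csW g).simple k * w)).mulVec x) =
      Q base ((R w).mulVec x) + 2 * P.s * Q ((R w).mulVec x) (P.e k) := by
  rw [map_mul, ← Matrix.mulVec_mulVec, hR, Q_add_right, Q_smul_right, P.bs]
  ring

theorem wlen {g : ℕ} {P : Poly g} {R : Wg g →* Matrix (Fin 3) (Fin 3) ℝ} (hR : IsRep P R)
    (w : Wg g) : 1 + 2 * P.s ^ 2 * ((csW g).length w : ℝ) ≤ Q base ((R w).mulVec base) := by
  have key : ∀ n : ℕ, ∀ w : Wg g, (csW g).length w = n →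
      1 + 2 * P.s ^ 2 * (n : ℝ) ≤ Q base ((R w).mulVec base) := by
    intro n
    induction n with
    | zero =>
      intro w hw
      rw [(csW g).length_eq_zero_iff] at hw
      subst hw
      rw [map_one, Matrix.one_mulVec, base_hyp.1]
      simp
    | succ n ih =>
      intro w hw
      have hw1 : w ≠ 1 := by
        intro h
        rw [h, (csW g).length_one] at hw
        omega
      obtain ⟨k, hk⟩ := (csW g).exists_leftDescent_of_ne_one hw1
      have h1 : (csW g).length ((csW g).simple k * w) = n := by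
        have h1 := (csW g).isLeftDescent_iff.1 hk
        omega
      have h2 : ¬ (csW g).IsLeftDescent ((csW g).simple k * w) k :=
        (csW g).isLeftDescent_iff_not_isLeftDescent_mul.1 hk
      have h3 := (tile hR P.s_pos.le (fun k => (P.bs k).ge) ((csW g).simple k * w)).1 k h2
      have h4 := ih _ h1
      have h5 := bstep hR base ((csW g).simple k * w) k
      rw [(csW g).simple_mul_simple_cancel_left] at h5
      rw [h5]
      push_cast
      nlinarith [P.s_pos, mul_le_mul_of_nonneg_left h3 P.s_pos.le]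
  exact key _ w rfl

theorem wprop {g : ℕ} {P : Poly g} {R : Wg g →* Matrix (Fin 3) (Fin 3) ℝ} (hR : IsRep P R)
    (K : ℝ) : {w : Wg g | Q base ((R w).mulVec base) ≤ K}.Finite := by
  have hs : 0 < 2 * P.s ^ 2 := by
    have := P.s_pos
    positivity
  obtain ⟨N, hN⟩ := exists_nat_ge ((K - 1) / (2 * P.s ^ 2))
  have hfin : {ω : List (ZMod (2 * g + 2)) | ω.length ≤ N}.Finite := List.finite_length_le _ _
  refine (hfin.image (csW g).wordProd).subset ?_
  intro w hw
  have h1 : (csW g).length w ≤ N := by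
    have h2 := wlen hR w
    have h3 : (((csW g).length w : ℕ) : ℝ) ≤ (K - 1) / (2 * P.s ^ 2) := by
      rw [le_div_iff₀ hs]
      have h4 : Q base ((R w).mulVec base) ≤ K := hw
      linarith
    exact_mod_cast h3.trans hN
  obtain ⟨ω, hω, hw2⟩ := (csW g).exists_isReduced w
  refine ⟨ω, ?_, hw2.symm⟩
  have h5 : (csW g).length w = ω.length := by
    rw [hw2]
    exact hω.eq
  rw [Set.mem_setOf_eq, ← h5]
  exact h1

/-- Every point of the hyperbolic plane can be moved into the polygon. -/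
theorem wdom {g : ℕ} {P : Poly g} {R : Wg g →* Matrix (Fin 3) (Fin 3) ℝ} (hR : IsRep P R)
    {x : V} (hx : x ∈ Hyp) : ∃ w : Wg g, ∀ k, 0 ≤ Q ((R w).mulVec x) (P.e k) := by
  have hfin : {w : Wg g | Q base ((R w).mulVec x) ≤ Q base x}.Finite := by
    refine (wprop hR (4 * (Q base x * Q x base))).subset ?_
    intro w hw
    have h1 : Q base ((R w).mulVec x) ≤ Q base x := hw
    have h2 := Q_tri (hyp_cone base_hyp) (rep_hyp hR w hx) (hyp_cone (rep_hyp hR w base_hyp))
    rw [rep_Q hR] at h2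
    have h3 : 0 ≤ Q x base := (Q_pos_hyp hx (hyp_cone base_hyp)).le
    refine h2.trans ?_
    exact mul_le_mul_of_nonneg_left (mul_le_mul_of_nonneg_right h1 h3) (by norm_num)
  have hne : {w : Wg g | Q base ((R w).mulVec x) ≤ Q base x}.Nonempty :=
    ⟨1, by rw [Set.mem_setOf_eq, map_one, Matrix.one_mulVec]⟩
  obtain ⟨w, hw, hmin⟩ := Set.exists_min_image _ (fun w => Q base ((R w).mulVec x)) hfin hne
  refine ⟨w, fun k => ?_⟩
  have h1 : Q base ((R w).mulVec x) ≤ Q base ((R ((csW g).simple k * w)).mulVec x) := by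
    by_cases h : (csW g).simple k * w ∈ {w : Wg g | Q base ((R w).mulVec x) ≤ Q base x}
    · exact hmin _ h
    · rw [Set.mem_setOf_eq, not_le] at h
      exact le_trans hw h.le
  rw [bstep hR] at h1
  have h2 : 0 ≤ 2 * P.s * Q ((R w).mulVec x) (P.e k) := by linarith
  have h3 : 0 < 2 * P.s := by linarith [P.s_pos]
  exact nonneg_of_mul_nonneg_right h2 h3

theorem wcoc {g : ℕ} {P : Poly g} {R : Wg g →* Matrix (Fin 3) (Fin 3) ℝ} (hR : IsRep P R) :
    ∃ R0 : ℝ, ∀ x ∈ Hyp, ∃ w : Wg g, Q x ((R w).mulVec base) ≤ R0 := by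
  obtain ⟨R0, hR0⟩ := P.bdd
  refine ⟨R0, fun x hx => ?_⟩
  obtain ⟨w, hw⟩ := wdom hR hx
  refine ⟨w⁻¹, ?_⟩
  have h1 := hR0 _ (rep_hyp hR w hx) hw
  rw [← rep_Q hR w x, Matrix.mulVec_mulVec, ← map_mul, mul_inv_cancel, map_one, Matrix.one_mulVec,
    Q_base_right]
  exact h1

end Pool.Agent.Work.MP_d3656f_al
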