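import Mathlib
import Pool.Agent.Work.MP_d3656f_al.W.Prop

/-!
# W/Tf : elements of finite order are detected by the parity homomorphism

Let `w^n = 1`, `n > 0`, `c w = 1`. The vector `z = Σ_{i<n} w^i base` is in the open cone and fixed
by `w`; let `x ∈ Hyp` be its normalisation. By `wdom` there is `v` with `y = v x` in the polygon
(`Q y (e k) ≥ 0` for all `k`), and `w' = v w v⁻¹` fixes `y`. It is enough to show `w' = 1`; we have
`c w' = 1`.
(a) If `u y = y` then `u` is in the subgroup generated by the `s_k` with `Q y (e k) = 0`: induction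
on the length: for `u ≠ 1` let `k` be a left descent; by `tile` (`σ = 0`)
`Q (u y) (e k) ≤ 0`, so `Q y (e k) = 0`, `s_k y = y`, and `(s_k u) y = y` with `s_k u` shorter.
(b) Let `k ≠ l` be with `Q y (e k) = Q y (e l) = 0`. Then they are adjacent: otherwise
`β = Q (e k) (e l) ≥ 1` and the vector `v = e k + e l`, orthogonal to the timelike `y`, satisfies
`Q v v = -2 + 2 β ≥ 0`; a vector `v` orthogonal to a vector `y` of `Hyp` has `Q v v < 0` unless
`v = 0`; and `v ≠ 0` as `Q base v = 2 s > 0`.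
(c) The set `{k | Q y (e k) = 0}` has at most two elements (three pairwise adjacent letters do not
exist for `2 g + 2 ≥ 4`), and if it has two then they are adjacent, commute and have different
parity. So `w'` is one of `1, s_k, s_l, s_k s_l`, and `c w' = 1` leaves only `1`.
-/

set_option autoImplicit false

namespace Pool.Agent.Work.MP_d3656f_al

private theorem tf_act {g : ℕ} (R : Wg g →* Matrix (Fin 3) (Fin 3) ℝ) (u v : Wg g) (x : V) :
    (R (u * v)).mulVec x = (R u).mulVec ((R v).mulVec x) := by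
  rw [map_mul, Matrix.mulVec_mulVec]

private theorem tf_one {g : ℕ} (R : Wg g →* Matrix (Fin 3) (Fin 3) ℝ) (x : V) : (R 1).mulVec x = x := by
  rw [map_one, Matrix.one_mulVec]

private theorem tf_par_succ {g : ℕ} (k : ZMod (2 * g + 2)) : par (k + 1) ≠ par k := by
  unfold par
  rw [ZMod.val_add, Nat.mod_mod_of_dvd _ (by omega : 2 ∣ 2 * g + 2)]
  have h1 : (1 : ZMod (2 * g + 2)).val = 1 := by
    rw [ZMod.val_one_eq_one_mod]
    exact Nat.mod_eq_of_lt (by omega)
  rw [h1]
  omega

private theorem tf_ne_succ {g : ℕ} (k : ZMod (2 * g + 2)) : k ≠ k + 1 := by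
  intro h
  exact tf_par_succ k (by rw [← h])

private theorem tf_comm {g : ℕ} {k l : ZMod (2 * g + 2)} (h : l = k + 1 ∨ k = l + 1) :
    (csW g).simple k * (csW g).simple l = (csW g).simple l * (csW g).simple k := by
  have hM : (cox g).M k l = 2 := by
    change (if k = l then 1 else if l = k + 1 ∨ k = l + 1 then 2 else 0) = 2
    rw [if_neg, if_pos h]
    rintro rfl
    rcases h with h | h
    · exact tf_ne_succ k h
    · exact tf_ne_succ k h
  have h1 := (csW g).simple_mul_simple_pow k l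
  rw [show (cox g) k l = 2 from hM, pow_two] at h1
  have h2 : (csW g).simple k * (csW g).simple l = ((csW g).simple k * (csW g).simple l)⁻¹ :=
    eq_inv_of_mul_eq_one_left h1
  rw [mul_inv_rev, (csW g).inv_simple, (csW g).inv_simple] at h2
  exact h2

private theorem tf_orth {y f : V} (hy : y ∈ Hyp) (h : Q y f = 0) (hf : 0 < f 2) : Q f f < 0 := by
  obtain ⟨h1, h2⟩ := hy
  unfold Q at h1 h ⊢
  have h3 : f 2 * y 2 = f 0 * y 0 + f 1 * y 1 := by linarith
  by_contra hcon
  push Not at hcon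
  have h4 : (f 0 * y 0 + f 1 * y 1) ^ 2 ≤ (f 0 ^ 2 + f 1 ^ 2) * (y 0 ^ 2 + y 1 ^ 2) := by
    nlinarith [sq_nonneg (f 0 * y 1 - f 1 * y 0)]
  rw [← h3] at h4
  have h5 : y 0 ^ 2 + y 1 ^ 2 = y 2 ^ 2 - 1 := by linarith
  rw [h5] at h4
  have h6 : f 0 ^ 2 + f 1 ^ 2 ≤ f 2 ^ 2 := by linarith
  have h7 : 0 ≤ y 2 ^ 2 - 1 := by rw [← h5]; positivity
  have h8 : (f 0 ^ 2 + f 1 ^ 2) * (y 2 ^ 2 - 1) ≤ f 2 ^ 2 * (y 2 ^ 2 - 1) := mul_le_mul_of_nonneg_right h6 h7
  have h9 : 0 < f 2 ^ 2 := by positivity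
  nlinarith

private theorem tf_adj {g : ℕ} (P : Poly g) {y : V} (hy : y ∈ Hyp) {k l : ZMod (2 * g + 2)} (hk : Q y (P.e k) = 0)
    (hl : Q y (P.e l) = 0) (hkl : k ≠ l) : l = k + 1 ∨ k = l + 1 := by
  by_contra hcon
  push Not at hcon
  have hfar := P.far k l hkl hcon.1 hcon.2
  have h1 : Q y (P.e k + P.e l) = 0 := by rw [Q_add_right, hk, hl, add_zero]
  have h2 : 0 < (P.e k + P.e l) 2 := by
    rw [← Q_base_left (P.e k + P.e l), Q_add_right, P.bs, P.bs]
    have := P.s_pos
    linarith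
  have h3 := tf_orth hy h1 h2
  rw [Q_add_left, Q_add_right, Q_add_right, P.self, P.self, Q_symm (P.e l) (P.e k)] at h3
  linarith

private theorem tf_fix {g : ℕ} {P : Poly g} {R : Wg g →* Matrix (Fin 3) (Fin 3) ℝ}
    (hR : IsRep P R) {y : V} (hy0 : ∀ k, 0 ≤ Q y (P.e k)) (X : Set (Wg g)) (h1 : 1 ∈ X)
    (hX : ∀ m, Q y (P.e m) = 0 → ∀ u ∈ X, (csW g).simple m * u ∈ X) :
    ∀ (n : ℕ) (u : Wg g), (csW g).length u ≤ n → (R u).mulVec y = y → u ∈ X := by
  intro n
  induction n with
  | zero =>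
    intro u hu _
    have : u = 1 := (csW g).length_eq_zero_iff.mp (Nat.le_zero.mp hu)
    rw [this]
    exact h1
  | succ n ih =>
    intro u hu huy
    by_cases hu1 : u = 1
    · rw [hu1]
      exact h1
    · obtain ⟨k, hk⟩ := (csW g).exists_leftDescent_of_ne_one hu1
      have h2 := (tile hR le_rfl hy0 u).2.1 k hk
      rw [huy] at h2
      have h3 : Q y (P.e k) = 0 := le_antisymm (by linarith) (hy0 k)
      have h4 : (R ((csW g).simple k * u)).mulVec y = y := by
        rw [tf_act, huy, hR, h3, mul_zero, zero_smul, add_zero]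
      have h5 : (csW g).length ((csW g).simple k * u) ≤ n := by
        have := ((csW g).isLeftDescent_iff).mp hk
        omega
      have h6 := hX k h3 _ (ih _ h5 h4)
      rwa [(csW g).simple_mul_simple_cancel_left] at h6

private theorem tf_sum {g : ℕ} {P : Poly g} {R : Wg g →* Matrix (Fin 3) (Fin 3) ℝ}
    (hR : IsRep P R) (w : Wg g) (m : ℕ) :
    (∑ i ∈ Finset.range (m + 1), (R (w ^ i)).mulVec base) ∈ Cone ∧
      0 < Q (∑ i ∈ Finset.range (m + 1), (R (w ^ i)).mulVec base) (∑ i ∈ Finset.range (m + 1), (R (w ^ i)).mulVec base) := by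
  induction m with
  | zero =>
    rw [Finset.sum_range_one]
    have h := rep_hyp hR (w ^ 0) base_hyp
    exact ⟨hyp_cone h, by rw [h.1]; norm_num⟩
  | succ m ih =>
    rw [Finset.sum_range_succ]
    have h := rep_hyp hR (w ^ (m + 1)) base_hyp
    refine ⟨cone_add ih.1 (hyp_cone h), ?_⟩
    rw [Q_add_left, Q_add_right, Q_add_right, h.1]
    have h2 := Q_nonneg ih.1 (hyp_cone h)
    have h3 := Q_nonneg (hyp_cone h) ih.1
    linarith [ih.2]

private theorem tf_fixed {g : ℕ} {P : Poly g} {R : Wg g →* Matrix (Fin 3) (Fin 3) ℝ}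
    (hR : IsRep P R) (w : Wg g) (n : ℕ) (hn : 0 < n) (hw : w ^ n = 1) : ∃ x ∈ Hyp, (R w).mulVec x = x := by
  obtain ⟨m, rfl⟩ : ∃ m, n = m + 1 := ⟨n - 1, by omega⟩
  set z := ∑ i ∈ Finset.range (m + 1), (R (w ^ i)).mulVec base with hz
  obtain ⟨hz1, hz2⟩ := tf_sum hR w m
  rw [← hz] at hz1 hz2
  have hwz : (R w).mulVec z = z := by
    have h1 : (R w).mulVec z = ∑ i ∈ Finset.range (m + 1), (R (w ^ (i + 1))).mulVec base := by
      rw [hz, Matrix.mulVec_sum]
      refine Finset.sum_congr rfl fun i _ => ?_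
      rw [← tf_act, pow_succ']
    rw [h1, Finset.sum_range_succ, hw, hz, Finset.sum_range_succ', pow_zero]
  refine ⟨(Real.sqrt (Q z z))⁻¹ • z, ⟨?_, ?_⟩, ?_⟩
  · rw [Q_smul_left, Q_smul_right, ← mul_assoc, ← mul_inv, Real.mul_self_sqrt hz2.le, inv_mul_cancel₀ hz2.ne']
  · rw [Pi.smul_apply, smul_eq_mul]
    exact mul_pos (inv_pos.mpr (Real.sqrt_pos.mpr hz2)) hz1.2
  · rw [Matrix.mulVec_smul, hwz]

theorem wtf {g : ℕ} (hg : 2 ≤ g) {P : Poly g} {R : Wg g →* Matrix (Fin 3) (Fin 3) ℝ}
    (hR : IsRep P R) {c : Wg g →* Multiplicative (ZMod 2) × Multiplicative (ZMod 2)}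
    (hc : IsCl c) (w : Wg g) (n : ℕ) (hn : 0 < n) (hw : w ^ n = 1) (hcw : c w = 1) : w = 1 := by
  obtain ⟨x, hx, hwx⟩ := tf_fixed hR w n hn hw
  obtain ⟨v, hv⟩ := wdom hR hx
  set y := (R v).mulVec x with hy
  have hyH : y ∈ Hyp := rep_hyp hR v hx
  have hw'y : (R (v * w * v⁻¹)).mulVec y = y := by
    rw [tf_act, tf_act, hy, ← tf_act R v⁻¹ v, inv_mul_cancel, tf_one, hwx]
  have hcw' : c (v * w * v⁻¹) = 1 := by
    rw [map_mul, map_mul, hcw, mul_one, map_inv, mul_inv_cancel]
  have hparity : ∀ k : ZMod (2 * g + 2), par k = 0 ∨ par k = 1 := by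
    intro k
    unfold par
    omega
  have hadj : ∀ k l, Q y (P.e k) = 0 → Q y (P.e l) = 0 → k ≠ l → par k ≠ par l := by
    intro k l hk hl hkl
    rcases tf_adj P hyH hk hl hkl with h | h
    · rw [h]
      exact (tf_par_succ k).symm
    · rw [h]
      exact tf_par_succ l
  have hX := tf_fix hR hv
    {u | u = 1 ∨ (∃ k, Q y (P.e k) = 0 ∧ u = (csW g).simple k) ∨
      ∃ k l, Q y (P.e k) = 0 ∧ Q y (P.e l) = 0 ∧ par k = 0 ∧ par l = 1 ∧ u = (csW g).simple k * (csW g).simple l}
    (Or.inl rfl) (by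
      rintro m hm u (rfl | ⟨k, hk, rfl⟩ | ⟨k, l, hk, hl, hk0, hl1, rfl⟩)
      · exact Or.inr (Or.inl ⟨m, hm, mul_one _⟩)
      · by_cases hmk : m = k
        · subst hmk
          exact Or.inl ((csW g).simple_mul_simple_self m)
        · have h1 := hadj m k hm hk hmk
          right
          right
          rcases hparity m with h2 | h2
          · refine ⟨m, k, hm, hk, h2, ?_, rfl⟩
            rcases hparity k with h3 | h3
            · exact absurd (h2.trans h3.symm) h1
            · exact h3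
          · refine ⟨k, m, hk, hm, ?_, h2, tf_comm (tf_adj P hyH hm hk hmk)⟩
            rcases hparity k with h3 | h3
            · exact h3
            · exact absurd (h2.trans h3.symm) h1
      · rcases hparity m with h2 | h2
        · have hmk : m = k := by
            by_contra hne
            exact hadj m k hm hk hne (h2.trans hk0.symm)
          subst hmk
          right
          left
          exact ⟨l, hl, (csW g).simple_mul_simple_cancel_left m⟩
        · have hml : m = l := by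
            by_contra hne
            exact hadj m l hm hl hne (h2.trans hl1.symm)
          subst hml
          right
          left
          refine ⟨k, hk, ?_⟩
          have hkm : k ≠ m := by
            rintro rfl
            omega
          rw [tf_comm (tf_adj P hyH hk hm hkm), (csW g).simple_mul_simple_cancel_left])
    _ (v * w * v⁻¹) le_rfl hw'y
  have hof : (Multiplicative.ofAdd (1 : ZMod 2)) ≠ 1 := by
    rw [Ne, ofAdd_eq_one]
    decide
  have hw1 : v * w * v⁻¹ = 1 := by
    rcases hX with h | ⟨k, hk, h⟩ | ⟨k, l, hk, hl, hk0, hl1, h⟩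
    · exact h
    · rw [h, hc] at hcw'
      split_ifs at hcw' with h1
      · exact absurd (congrArg Prod.fst hcw') hof
      · exact absurd (congrArg Prod.snd hcw') hof
    · rw [h, map_mul, hc, hc, if_pos hk0, if_neg (by omega)] at hcw'
      have h2 := congrArg Prod.fst hcw'
      rw [Prod.fst_mul, mul_one] at h2
      exact absurd h2 hof
  have h3 : v * w * v⁻¹ * v = v := by rw [hw1, one_mul]
  rw [inv_mul_cancel_right] at h3
  exact mul_eq_left.mp h3

end Pool.Agent.Work.MP_d3656f_al
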