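import Mathlib
import Pool.Agent.Work.MP_d3656f_al.W.Poly
import Pool.Agent.Work.MP_d3656f_al.W.Tf
import Pool.Agent.Work.MP_d3656f_al.W.Emb

/-!
# W/Mod : the surface group of genus `g ≥ 2` has a model

`P` from `poly_ex`, `R` from `rep_ex`, `c` from `cl_ex`, `ρ` from `emb g`. `rho = R ∘ ρ`.
`pres`, `fut`: `rep_Q`, `rep_hyp` (`base ∈ Hyp`). `det_one`: `rep_det`. `proper`: the set is the
preimage under the injective map `ρ` of the finite set of `wprop`. `cocpt`: for `x ∈ Hyp` let `w` be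
from `wcoc`, `w = ρ γ * t`; `Q x (ρ γ base) ≤ 4 Q x (w base) Q (w base) (ρ γ base)
= 4 Q x (w base) Q (t base) base`, bounded as `t ∈ T` finite. `tf`: if `γ ^ n = 1` then
`(ρ γ)^n = 1`, so `ρ γ = 1` by `wtf`, `γ = 1`.
-/

set_option autoImplicit false

namespace Pool.Agent.Work.MP_d3656f_al

theorem model_ex {g : ℕ} (hg : 2 ≤ g) : Nonempty (Model (SG g)) := by
  obtain ⟨P⟩ := poly_ex hg
  obtain ⟨R, hR⟩ := rep_ex P
  obtain ⟨c, hc⟩ := cl_ex g
  obtain ⟨ρ, hinj, ⟨T, hT, hidx⟩, hpar⟩ := emb g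
  refine ⟨{
    rho := R.comp ρ
    pres := fun γ x y => rep_Q hR (ρ γ) x y
    fut := fun γ => (rep_hyp hR (ρ γ) base_hyp).2
    det_one := fun γ => rep_det hR hc (ρ γ) (hpar c hc γ)
    proper := ?_
    cocpt := ?_
    tf := ?_ }⟩
  · intro K
    exact (wprop hR K).preimage (hinj.injOn) 
  · obtain ⟨R0, hR0⟩ := wcoc hR
    obtain ⟨B, hB⟩ : ∃ B : ℝ, ∀ t ∈ T, Q base ((R t).mulVec base) ≤ B := by
      obtain ⟨B, hB⟩ := (hT.image fun t => Q base ((R t).mulVec base)).bddAbove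
      exact ⟨B, fun t ht => hB ⟨t, ht, rfl⟩⟩
    refine ⟨4 * (R0 * B), fun x hx => ?_⟩
    obtain ⟨w, hw⟩ := hR0 x hx
    obtain ⟨γ, t, ht, rfl⟩ := hidx w
    refine ⟨γ, ?_⟩
    show Q x ((R (ρ γ)).mulVec base) ≤ _
    have h1 : Q x ((R (ρ γ)).mulVec base) ≤ 4 * (Q x ((R (ρ γ * t)).mulVec base) *
        Q ((R (ρ γ * t)).mulVec base) ((R (ρ γ)).mulVec base)) :=
      Q_tri (hyp_cone hx) (rep_hyp hR _ base_hyp) (hyp_cone (rep_hyp hR _ base_hyp))
    have h2 : Q ((R (ρ γ * t)).mulVec base) ((R (ρ γ)).mulVec base)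
        = Q base ((R t).mulVec base) := by
      rw [map_mul, ← Matrix.mulVec_mulVec, rep_Q hR, Q_symm]
    rw [h2] at h1
    have h3 : 0 ≤ Q base ((R t).mulVec base) :=
      Q_nonneg (hyp_cone base_hyp) (hyp_cone (rep_hyp hR _ base_hyp))
    have h4 : 0 ≤ Q x ((R (ρ γ * t)).mulVec base) :=
      Q_nonneg (hyp_cone hx) (hyp_cone (rep_hyp hR _ base_hyp))
    have h5 : Q x ((R (ρ γ * t)).mulVec base) * Q base ((R t).mulVec base) ≤ R0 * B :=
      mul_le_mul hw (hB t ht) h3 (h4.trans hw)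
    linarith
  · intro γ hγ n hn hpow
    apply hγ
    apply hinj
    rw [map_one]
    exact wtf hg hR hc (ρ γ) n hn (by rw [← map_pow, hpow, map_one]) (hpar c hc γ)

end Pool.Agent.Work.MP_d3656f_al
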